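import Mathlib

set_option autoImplicit false
set_option linter.unusedSectionVars false
set_option linter.unusedVariables false
open Matrix
open scoped ComplexOrder

namespace Pool.Agent.Results.MP_ebd556_mp.MultivariateTrace

section basics
variable {ι : Type*} [Fintype ι] [DecidableEq ι]

/-- real part of the trace -/
noncomputable def tr (X : Matrix ι ι ℂ) : ℝ := X.trace.re

lemma tr_add (X Y : Matrix ι ι ℂ) : tr (X + Y) = tr X + tr Y := by
  unfold tr; rw [Matrix.trace_add, Complex.add_re]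

lemma tr_sub (X Y : Matrix ι ι ℂ) : tr (X - Y) = tr X - tr Y := by
  unfold tr; rw [Matrix.trace_sub, Complex.sub_re]

lemma tr_comm (X Y : Matrix ι ι ℂ) : tr (X * Y) = tr (Y * X) := by
  unfold tr; rw [Matrix.trace_mul_comm]

lemma tr_zero : tr (0 : Matrix ι ι ℂ) = 0 := by
  unfold tr; simp

lemma tr_sum {κ : Type*} (s : Finset κ) (X : κ → Matrix ι ι ℂ) :
    tr (∑ k ∈ s, X k) = ∑ k ∈ s, tr (X k) := by
  classical
  induction s using Finset.induction_on with
  | empty => simp [tr_zero]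
  | insert a s ha ih => rw [Finset.sum_insert ha, Finset.sum_insert ha, tr_add, ih]

/-- squared Frobenius norm -/
noncomputable def hs (X : Matrix ι ι ℂ) : ℝ := ∑ i, ∑ j, ‖X i j‖ ^ 2

lemma hs_nonneg (X : Matrix ι ι ℂ) : 0 ≤ hs X :=
  Finset.sum_nonneg fun i _ => Finset.sum_nonneg fun j _ => sq_nonneg _

lemma hs_tr (X : Matrix ι ι ℂ) : tr (Xᴴ * X) = hs X := by
  have h : (Xᴴ * X).trace = (hs X : ℂ) := by
    unfold hs Matrix.trace
    simp only [diag_apply, Matrix.mul_apply, conjTranspose_apply]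
    rw [Finset.sum_comm]
    push_cast
    refine Finset.sum_congr rfl fun i _ => Finset.sum_congr rfl fun j _ => ?_
    rw [← Complex.conj_mul']
    rfl
  unfold tr
  rw [h, Complex.ofReal_re]

/-- `U diag(φ) U*` -/
noncomputable def C (U : Matrix ι ι ℂ) (φ : ι → ℝ) : Matrix ι ι ℂ :=
  U * Matrix.diagonal (fun i => ((φ i : ℝ) : ℂ)) * Uᴴ

lemma C_congr (U : Matrix ι ι ℂ) {φ ψ : ι → ℝ} (h : ∀ i, φ i = ψ i) : C U φ = C U ψ := by
  rw [funext h]

lemma C_mul (U : Matrix ι ι ℂ) (hU : Uᴴ * U = 1) (φ ψ : ι → ℝ) :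
    C U φ * C U ψ = C U (fun i => φ i * ψ i) := by
  unfold C
  calc U * Matrix.diagonal (fun i => ((φ i : ℝ) : ℂ)) * Uᴴ * (U * Matrix.diagonal (fun i => ((ψ i : ℝ) : ℂ)) * Uᴴ)
      = U * Matrix.diagonal (fun i => ((φ i : ℝ) : ℂ)) * (Uᴴ * U) * Matrix.diagonal (fun i => ((ψ i : ℝ) : ℂ)) * Uᴴ := by
        simp only [Matrix.mul_assoc]
    _ = U * (Matrix.diagonal (fun i => ((φ i : ℝ) : ℂ)) * Matrix.diagonal (fun i => ((ψ i : ℝ) : ℂ))) * Uᴴ := by
        rw [hU]; simp only [Matrix.mul_assoc, Matrix.one_mul]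
    _ = _ := by rw [Matrix.diagonal_mul_diagonal]; simp

lemma C_herm (U : Matrix ι ι ℂ) (φ : ι → ℝ) : (C U φ)ᴴ = C U φ := by
  unfold C
  rw [conjTranspose_mul, conjTranspose_mul, conjTranspose_conjTranspose, diagonal_conjTranspose,
    Matrix.mul_assoc]
  congr 2
  congr 1
  ext i
  simp

lemma C_psd (U : Matrix ι ι ℂ) (φ : ι → ℝ) (h : ∀ i, 0 ≤ φ i) : (C U φ).PosSemidef := by
  unfold C
  apply Matrix.PosSemidef.mul_mul_conjTranspose_same
  rw [Matrix.posSemidef_diagonal_iff]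
  intro i
  exact_mod_cast h i

lemma C_tr (U : Matrix ι ι ℂ) (hU : Uᴴ * U = 1) (φ : ι → ℝ) :
    tr (C U φ) = ∑ i, φ i := by
  unfold C tr
  rw [Matrix.mul_assoc, Matrix.trace_mul_comm, Matrix.mul_assoc, hU, Matrix.mul_one]
  unfold Matrix.trace
  simp

lemma C_sub (U : Matrix ι ι ℂ) (φ ψ : ι → ℝ) : C U φ - C U ψ = C U (fun i => φ i - ψ i) := by
  unfold C
  rw [← Matrix.sub_mul, ← Matrix.mul_sub, Matrix.diagonal_sub]
  simp

lemma C_one (U : Matrix ι ι ℂ) (hU : U * Uᴴ = 1) : C U (fun _ => 1) = 1 := by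
  unfold C
  simp [hU]

/-- real diagonal entries of `U* X U` -/
noncomputable def dg (U X : Matrix ι ι ℂ) (i : ι) : ℝ := ((Uᴴ * X * U) i i).re

lemma dg_nonneg (U X : Matrix ι ι ℂ) (hX : X.PosSemidef) (i : ι) : 0 ≤ dg U X i := by
  have h := (hX.conjTranspose_mul_mul_same U).diag_nonneg (i := i)
  exact (Complex.le_def.mp h).1

lemma dg_add (U X Y : Matrix ι ι ℂ) (i : ι) : dg U (X + Y) i = dg U X i + dg U Y i := by
  unfold dg
  rw [Matrix.mul_add, Matrix.add_mul, Matrix.add_apply, Complex.add_re]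

lemma dg_sub (U X Y : Matrix ι ι ℂ) (i : ι) : dg U (X - Y) i = dg U X i - dg U Y i := by
  unfold dg
  rw [Matrix.mul_sub, Matrix.sub_mul, Matrix.sub_apply, Complex.sub_re]

lemma dg_sum {κ : Type*} (s : Finset κ) (U : Matrix ι ι ℂ) (X : κ → Matrix ι ι ℂ) (i : ι) :
    dg U (∑ k ∈ s, X k) i = ∑ k ∈ s, dg U (X k) i := by
  classical
  induction s using Finset.induction_on with
  | empty => simp [dg]
  | insert a s ha ih => rw [Finset.sum_insert ha, Finset.sum_insert ha, dg_add, ih]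

lemma dg_one (U : Matrix ι ι ℂ) (hU : Uᴴ * U = 1) (i : ι) : dg U 1 i = 1 := by
  unfold dg
  rw [Matrix.mul_one, hU]
  simp

lemma tr_C_mul (U X : Matrix ι ι ℂ) (φ : ι → ℝ) : tr (C U φ * X) = ∑ i, φ i * dg U X i := by
  have h1 : tr (C U φ * X) = tr (Matrix.diagonal (fun i => ((φ i : ℝ) : ℂ)) * (Uᴴ * X * U)) := by
    unfold C
    calc tr (U * Matrix.diagonal (fun i => ((φ i : ℝ) : ℂ)) * Uᴴ * X)
        = tr (U * (Matrix.diagonal (fun i => ((φ i : ℝ) : ℂ)) * Uᴴ * X)) := by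
          simp only [Matrix.mul_assoc]
      _ = tr ((Matrix.diagonal (fun i => ((φ i : ℝ) : ℂ)) * Uᴴ * X) * U) := tr_comm _ _
      _ = _ := by simp only [Matrix.mul_assoc]
  rw [h1]
  unfold tr dg Matrix.trace
  simp only [diag_apply, Matrix.diagonal_mul, Complex.re_sum, Complex.re_ofReal_mul]

lemma col_sum (U X : Matrix ι ι ℂ) (i : ι) : ∑ l, ‖(X * U) l i‖ ^ 2 = dg U (Xᴴ * X) i := by
  unfold dg
  have h1 : Uᴴ * (Xᴴ * X) * U = (X * U)ᴴ * (X * U) := by
    rw [conjTranspose_mul]; simp only [Matrix.mul_assoc]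
  rw [h1, Matrix.mul_apply, Complex.re_sum]
  refine Finset.sum_congr rfl fun l _ => ?_
  rw [conjTranspose_apply, RCLike.star_def, Complex.conj_mul']
  norm_cast

lemma row_sum (U V X : Matrix ι ι ℂ) (hV : V * Vᴴ = 1) (i : ι) :
    ∑ k, ‖(Uᴴ * X * V) i k‖ ^ 2 = dg U (X * Xᴴ) i := by
  unfold dg
  have h1 : Uᴴ * (X * Xᴴ) * U = (Uᴴ * X * V) * (Uᴴ * X * V)ᴴ := by
    calc Uᴴ * (X * Xᴴ) * U = Uᴴ * X * (V * Vᴴ) * Xᴴ * U := by
          rw [hV]; simp only [Matrix.mul_assoc, Matrix.one_mul]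
      _ = _ := by
          rw [conjTranspose_mul, conjTranspose_mul, conjTranspose_conjTranspose]
          simp only [Matrix.mul_assoc]
  rw [h1, Matrix.mul_apply, Complex.re_sum]
  refine Finset.sum_congr rfl fun l _ => ?_
  rw [conjTranspose_apply, RCLike.star_def, Complex.mul_conj']
  norm_cast

/-- spectral decomposition -/
lemma spec (X : Matrix ι ι ℂ) (hX : X.IsHermitian) :
    ∃ (U : Matrix ι ι ℂ) (x : ι → ℝ), Uᴴ * U = 1 ∧ U * Uᴴ = 1 ∧ X = C U x ∧
      ∀ f : ℝ → ℝ, cfc f X = C U (fun i => f (x i)) := by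
  refine ⟨(hX.eigenvectorUnitary : Matrix ι ι ℂ), hX.eigenvalues,
    Matrix.mem_unitaryGroup_iff'.mp hX.eigenvectorUnitary.2,
    Matrix.mem_unitaryGroup_iff.mp hX.eigenvectorUnitary.2, ?_, ?_⟩
  · have hs := hX.spectral_theorem
    rw [Unitary.conjStarAlgAut_apply] at hs
    exact hs
  · intro f
    rw [hX.cfc_eq]
    unfold Matrix.IsHermitian.cfc
    rw [Unitary.conjStarAlgAut_apply]
    rfl

lemma C_entry (U : Matrix ι ι ℂ) (hU : Uᴴ * U = 1) (φ : ι → ℝ) (i : ι) :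
    dg U (C U φ) i = φ i := by
  unfold dg C
  have : Uᴴ * (U * Matrix.diagonal (fun i => ((φ i : ℝ) : ℂ)) * Uᴴ) * U
      = Matrix.diagonal (fun i => ((φ i : ℝ) : ℂ)) := by
    calc Uᴴ * (U * Matrix.diagonal (fun i => ((φ i : ℝ) : ℂ)) * Uᴴ) * U
        = (Uᴴ * U) * Matrix.diagonal (fun i => ((φ i : ℝ) : ℂ)) * (Uᴴ * U) := by
          simp only [Matrix.mul_assoc]
      _ = _ := by rw [hU, Matrix.one_mul, Matrix.mul_one]
  rw [this]
  simp

lemma spec_psd (X : Matrix ι ι ℂ) (hX : X.PosSemidef) :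
    ∃ (U : Matrix ι ι ℂ) (x : ι → ℝ), Uᴴ * U = 1 ∧ U * Uᴴ = 1 ∧ (∀ i, 0 ≤ x i) ∧ X = C U x ∧
      ∀ f : ℝ → ℝ, cfc f X = C U (fun i => f (x i)) := by
  obtain ⟨U, x, h1, h2, h3, h4⟩ := spec X hX.isHermitian
  refine ⟨U, x, h1, h2, fun i => ?_, h3, h4⟩
  rw [← C_entry U h1 x i, ← h3]
  exact dg_nonneg U X hX i

lemma tr_psd_mul (X Y : Matrix ι ι ℂ) (hX : X.PosSemidef) (hY : Y.PosSemidef) :
    0 ≤ tr (X * Y) := by
  obtain ⟨U, x, h1, h2, h3, h4, _⟩ := spec_psd X hX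
  rw [h4, tr_C_mul]
  exact Finset.sum_nonneg fun i _ => mul_nonneg (h3 i) (dg_nonneg U Y hY i)

lemma tr_psd_mono (X Y Z : Matrix ι ι ℂ) (hX : X.PosSemidef) (hYZ : (Z - Y).PosSemidef) :
    tr (X * Y) ≤ tr (X * Z) := by
  have h := tr_psd_mul X (Z - Y) hX hYZ
  rw [Matrix.mul_sub, tr_sub] at h
  linarith

lemma proj_psd (Q : Matrix ι ι ℂ) (h1 : Qᴴ = Q) (h2 : Q * Q = Q) : Q.PosSemidef := by
  have h := posSemidef_conjTranspose_mul_self Q
  rwa [h1, h2] at h

lemma proj_compl (Q : Matrix ι ι ℂ) (h1 : Qᴴ = Q) (h2 : Q * Q = Q) :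
    (1 - Q)ᴴ = 1 - Q ∧ (1 - Q) * (1 - Q) = 1 - Q := by
  constructor
  · rw [conjTranspose_sub, conjTranspose_one, h1]
  · rw [Matrix.mul_sub, Matrix.sub_mul, Matrix.sub_mul, h2]; simp

/-- `F² ≤ F` for `0 ≤ F ≤ 1`. -/
lemma sq_le_self (F : Matrix ι ι ℂ) (h1 : F.PosSemidef) (h2 : (1 - F).PosSemidef) :
    (F - F * F).PosSemidef := by
  have a := h2.conjTranspose_mul_mul_same F
  have b := h1.conjTranspose_mul_mul_same (1 - F)
  have hF : Fᴴ = F := h1.isHermitian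
  have hF' : (1 - F)ᴴ = 1 - F := h2.isHermitian
  rw [hF] at a
  rw [hF'] at b
  have e : F - F * F = F * (1 - F) * F + (1 - F) * F * (1 - F) := by noncomm_ring
  rw [e]
  exact a.add b

/-- square root of `0 ≤ R ≤ 1` -/
lemma exists_sqrt (R : Matrix ι ι ℂ) (h1 : R.PosSemidef) (h2 : (1 - R).PosSemidef) :
    ∃ S : Matrix ι ι ℂ, Sᴴ = S ∧ S * S = R ∧ (S - R).PosSemidef := by
  obtain ⟨U, r, hU, hU', hr, hR, _⟩ := spec_psd R h1
  have hr1 : ∀ i, r i ≤ 1 := by
    intro i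
    have h := dg_nonneg U (1 - R) h2 i
    rw [dg_sub, dg_one U hU, hR, C_entry U hU] at h
    linarith
  refine ⟨C U (fun i => Real.sqrt (r i)), C_herm _ _, ?_, ?_⟩
  · rw [C_mul U hU, hR]
    exact C_congr U fun i => Real.mul_self_sqrt (hr i)
  · rw [hR, C_sub]
    refine C_psd _ _ fun i => ?_
    have : r i ≤ Real.sqrt (r i) := by
      apply Real.le_sqrt_of_sq_le
      nlinarith [hr i, hr1 i]
    linarith

/-- parallelogram bound -/
lemma hs_sub_le (X Y : Matrix ι ι ℂ) : hs (X - Y) ≤ 2 * hs X + 2 * hs Y := by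
  unfold hs
  rw [Finset.mul_sum, Finset.mul_sum, ← Finset.sum_add_distrib]
  refine Finset.sum_le_sum fun i _ => ?_
  rw [Finset.mul_sum, Finset.mul_sum, ← Finset.sum_add_distrib]
  refine Finset.sum_le_sum fun j _ => ?_
  rw [Matrix.sub_apply]
  have h := norm_sub_le (X i j) (Y i j)
  nlinarith [norm_nonneg (X i j - Y i j), norm_nonneg (X i j), norm_nonneg (Y i j),
    sq_nonneg (‖X i j‖ - ‖Y i j‖)]

end basics

section seq
variable {ι : Type*} [Fintype ι] [DecidableEq ι]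

/-- one step of the sequential measurement -/
lemma step (R Q : Matrix ι ι ℂ) (h1 : R.PosSemidef) (h2 : (1 - R).PosSemidef) (hQ : Qᴴ = Q)
    (hQQ : Q * Q = Q) : ∃ E : Matrix ι ι ℂ, E.PosSemidef ∧ (R - E).PosSemidef ∧
      tr (Q * (1 - E)) ≤ 2 * tr (Q * (1 - R)) ∧
      ∀ W : Matrix ι ι ℂ, Wᴴ = W → W * W = W →
        tr (W * E) ≤ 2 * tr (W * Q) + 2 * tr (Q * (1 - R)) := by
  obtain ⟨S, hS, hSS, hSR⟩ := exists_sqrt R h1 h2
  have hQp := proj_psd Q hQ hQQ
  obtain ⟨hQ1, hQ2⟩ := proj_compl Q hQ hQQ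
  refine ⟨S * Q * S, ?_, ?_, ?_, ?_⟩
  · have := hQp.conjTranspose_mul_mul_same S
    rwa [hS] at this
  · have := (proj_psd (1 - Q) hQ1 hQ2).conjTranspose_mul_mul_same S
    rw [hS] at this
    have e : R - S * Q * S = S * (1 - Q) * S := by
      rw [← hSS]; noncomm_ring
    rw [e]; exact this
  · -- tr Q (1 - S Q S) ≤ 2 tr Q (1 - R)
    have a := hs_nonneg (Q - Q * S * Q)
    rw [← hs_tr] at a
    have e1 : (Q - Q * S * Q)ᴴ * (Q - Q * S * Q) = Q * Q - Q * Q * S * Q - Q * S * (Q * Q)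
        + Q * S * (Q * Q) * S * Q := by
      rw [conjTranspose_sub, conjTranspose_mul, conjTranspose_mul, hQ, hS]
      noncomm_ring
    rw [e1, hQQ, tr_add, tr_sub, tr_sub] at a
    have e2 : tr (Q * S * Q) = tr (Q * S) := by
      rw [tr_comm, ← Matrix.mul_assoc, hQQ]
    have e3 : tr (Q * S * Q * S * Q) = tr (Q * (S * Q * S)) := by
      rw [tr_comm]
      have : Q * (Q * S * Q * S) = (Q * Q) * (S * Q * S) := by noncomm_ring
      rw [this, hQQ]
    rw [e2, e3] at a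
    have b := tr_psd_mul Q (S - R) hQp hSR
    rw [Matrix.mul_sub, tr_sub] at b
    rw [Matrix.mul_sub, Matrix.mul_sub, Matrix.mul_one, tr_sub, tr_sub]
    linarith
  · intro W hW hWW
    have e1 : tr (W * (S * Q * S)) = hs (Q * S * W) := by
      rw [← hs_tr, conjTranspose_mul, conjTranspose_mul, hQ, hS, hW]
      have e0 : W * (S * Q) * (Q * S * W) = (W * S * (Q * Q) * S) * W := by noncomm_ring
      have e0' : W * (W * S * Q * S) = (W * W) * (S * Q * S) := by noncomm_ring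
      rw [e0, tr_comm (W * S * (Q * Q) * S) W, hQQ, e0', hWW]
    have e2 : Q * S * W = Q * W - Q * (1 - S) * W := by noncomm_ring
    have e3 : hs (Q * W) = tr (W * Q) := by
      rw [← hs_tr, conjTranspose_mul, hQ, hW]
      have e0 : W * Q * (Q * W) = (W * (Q * Q)) * W := by noncomm_ring
      rw [e0, hQQ, tr_comm (W * Q) W, ← Matrix.mul_assoc, hWW]
    obtain ⟨hW1, hW2⟩ := proj_compl W hW hWW
    have hS1 : (1 - S)ᴴ = 1 - S := by rw [conjTranspose_sub, conjTranspose_one, hS]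
    have e4 : hs (Q * (1 - S) * W) = tr (((1 - S) * Q * (1 - S)) * W) := by
      rw [← hs_tr, conjTranspose_mul, conjTranspose_mul, hQ, hW, hS1]
      have : W * ((1 - S) * Q) * (Q * (1 - S) * W) = W * (((1 - S) * (Q * Q) * (1 - S)) * W) := by
        noncomm_ring
      rw [this, hQQ, tr_comm, Matrix.mul_assoc, hWW]
    have hp : ((1 - S) * Q * (1 - S)).PosSemidef := by
      have := hQp.conjTranspose_mul_mul_same (1 - S)
      rwa [hS1] at this
    have e5 : tr (((1 - S) * Q * (1 - S)) * W) ≤ tr ((1 - S) * Q * (1 - S)) := by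
      have h := tr_psd_mul _ (1 - W) hp (proj_psd _ hW1 hW2)
      rw [Matrix.mul_sub, tr_sub, Matrix.mul_one] at h
      linarith
    have e6 : tr ((1 - S) * Q * (1 - S)) = tr (Q * ((1 - S) * (1 - S))) := by
      rw [Matrix.mul_assoc, tr_comm, Matrix.mul_assoc]
    have e7 : (1 - S) * (1 - S) = 1 - S - S + R := by rw [← hSS]; noncomm_ring
    have b := tr_psd_mul Q (S - R) hQp hSR
    rw [Matrix.mul_sub, tr_sub] at b
    have e8 : tr (Q * ((1 - S) * (1 - S))) = tr Q - tr (Q * S) - tr (Q * S) + tr (Q * R) := by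
      rw [e7, Matrix.mul_add, Matrix.mul_sub, Matrix.mul_sub, Matrix.mul_one, tr_add, tr_sub,
        tr_sub]
    have h := hs_sub_le (Q * W) (Q * (1 - S) * W)
    rw [← e2, ← e1, e3, e4] at h
    rw [Matrix.mul_sub Q, Matrix.mul_one, tr_sub]
    linarith

/-- the sequential measurement -/
lemma seq_exists (Q : ℕ → Matrix ι ι ℂ) (hQ : ∀ s, (Q s)ᴴ = Q s) (hQQ : ∀ s, Q s * Q s = Q s) :
    ∃ E : ℕ → Matrix ι ι ℂ, (∀ s, (E s).PosSemidef) ∧
      (∀ s, (1 - ∑ t ∈ Finset.range s, E t).PosSemidef) ∧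
      (∀ s, tr (Q s * (1 - E s)) ≤ 2 * tr (Q s * ∑ t ∈ Finset.range s, E t)) ∧
      (∀ s (W : Matrix ι ι ℂ), Wᴴ = W → W * W = W → tr (W * E s) ≤ 2 * tr (W * Q s)
        + 2 * tr (Q s * ∑ t ∈ Finset.range s, E t)) := by
  classical
  -- states
  let St := {R : Matrix ι ι ℂ // R.PosSemidef ∧ (1 - R).PosSemidef}
  have hstep : ∀ (R : St) (s : ℕ), ∃ E : Matrix ι ι ℂ, E.PosSemidef ∧ (R.1 - E).PosSemidef ∧
      tr (Q s * (1 - E)) ≤ 2 * tr (Q s * (1 - R.1)) ∧
      ∀ W : Matrix ι ι ℂ, Wᴴ = W → W * W = W →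
        tr (W * E) ≤ 2 * tr (W * Q s) + 2 * tr (Q s * (1 - R.1)) := fun R s =>
    step R.1 (Q s) R.2.1 R.2.2 (hQ s) (hQQ s)
  choose e he1 he2 he3 he4 using hstep
  let R0 : St := ⟨1, PosSemidef.one, by rw [sub_self]; exact PosSemidef.zero⟩
  let next : ℕ → St → St := fun s R => ⟨R.1 - e R s, he2 R s, by
    have h := R.2.2.add (he1 R s)
    have e : 1 - (R.1 - e R s) = 1 - R.1 + e R s := by abel
    rw [e]; exact h⟩
  let R : ℕ → St := fun s => Nat.rec R0 next s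
  have hR : ∀ s, (1 : Matrix ι ι ℂ) - (R s).1 = ∑ t ∈ Finset.range s, e (R t) t := by
    intro s
    induction s with
    | zero => simp [R, R0]
    | succ s ih =>
      rw [Finset.sum_range_succ, ← ih]
      show 1 - ((R s).1 - e (R s) s) = _
      abel
  refine ⟨fun s => e (R s) s, fun s => he1 _ _, fun s => ?_, fun s => ?_, fun s W hW hWW => ?_⟩
  · rw [← hR s, sub_sub_cancel]
    exact (R s).2.1
  · rw [← hR s]
    exact he3 _ _
  · rw [← hR s]
    exact he4 _ _ W hW hWW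

/-- potential argument -/
lemma potential (v y g : ℕ → ℝ) (hv : ∀ s, 0 ≤ v s) (hv5 : ∀ s, v s = 5 * v (s + 1))
    (hy : ∀ s, y s ≤ 2 * g s + 2 * ∑ t ∈ Finset.range s, y t) (M : ℕ) :
    ∑ s ∈ Finset.range M, v s * y s + 5 * v M * ∑ t ∈ Finset.range M, y t
      ≤ 4 * ∑ s ∈ Finset.range M, v s * g s := by
  induction M with
  | zero => simp
  | succ M ih =>
    rw [Finset.sum_range_succ, Finset.sum_range_succ, Finset.sum_range_succ, ← hv5 M]
    have h1 := mul_le_mul_of_nonneg_left (hy M) (hv M)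
    nlinarith

/-- Main estimate for a sequence of projections. -/
lemma main_seq (Q : ℕ → Matrix ι ι ℂ) (hQ : ∀ s, (Q s)ᴴ = Q s) (hQQ : ∀ s, Q s * Q s = Q s)
    (v : ℕ → ℝ) (hv : ∀ s, 0 ≤ v s) (hv5 : ∀ s, v s = 5 * v (s + 1)) (M : ℕ) :
    ∃ E : ℕ → Matrix ι ι ℂ, (∀ s, (E s).PosSemidef) ∧
      (1 - ∑ t ∈ Finset.range M, E t).PosSemidef ∧
      ∑ s ∈ Finset.range M, v s * tr (Q s * (1 - E s))
        ≤ 8 * ∑ s ∈ Finset.range M, v s * ∑ t ∈ Finset.range s, tr (Q s * Q t) := by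
  obtain ⟨E, h1, h2, h3, h4⟩ := seq_exists Q hQ hQQ
  refine ⟨E, h1, h2 M, ?_⟩
  set y : ℕ → ℝ := fun s => tr (Q s * ∑ t ∈ Finset.range s, E t) with hy
  have hy0 : ∀ s, 0 ≤ y s := by
    intro s
    refine tr_psd_mul _ _ (proj_psd _ (hQ s) (hQQ s)) ?_
    exact posSemidef_sum _ fun t _ => h1 t
  have hyb : ∀ s, y s ≤ 2 * (∑ t ∈ Finset.range s, tr (Q s * Q t))
      + 2 * ∑ t ∈ Finset.range s, y t := by
    intro s
    have : y s = ∑ t ∈ Finset.range s, tr (Q s * E t) := by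
      simp only [hy]
      rw [Finset.mul_sum, tr_sum]
    rw [this, Finset.mul_sum, Finset.mul_sum, ← Finset.sum_add_distrib]
    exact Finset.sum_le_sum fun t _ => h4 t (Q s) (hQ s) (hQQ s)
  have hp := potential v y (fun s => ∑ t ∈ Finset.range s, tr (Q s * Q t)) hv hv5 hyb M
  have hpos : 0 ≤ 5 * v M * ∑ t ∈ Finset.range M, y t :=
    mul_nonneg (mul_nonneg (by norm_num) (hv M)) (Finset.sum_nonneg fun t _ => hy0 t)
  have h5 : ∑ s ∈ Finset.range M, v s * tr (Q s * (1 - E s))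
      ≤ ∑ s ∈ Finset.range M, v s * (2 * y s) :=
    Finset.sum_le_sum fun s _ => mul_le_mul_of_nonneg_left (h3 s) (hv s)
  have h6 : ∑ s ∈ Finset.range M, v s * (2 * y s) = 2 * ∑ s ∈ Finset.range M, v s * y s := by
    rw [Finset.mul_sum]
    exact Finset.sum_congr rfl fun s _ => by ring
  rw [h6] at h5
  linarith

end seq


section pair
variable {ι : Type*} [Fintype ι] [DecidableEq ι]

lemma dg_C (U V : Matrix ι ι ℂ) (ψ : ι → ℝ) (i : ι) :
    dg U (C V ψ) i = ∑ k, ψ k * ‖(Uᴴ * V) i k‖ ^ 2 := by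
  unfold dg C
  have h : Uᴴ * (V * Matrix.diagonal (fun i => ((ψ i : ℝ) : ℂ)) * Vᴴ) * U
      = (Uᴴ * V) * Matrix.diagonal (fun i => ((ψ i : ℝ) : ℂ)) * (Uᴴ * V)ᴴ := by
    rw [conjTranspose_mul, conjTranspose_conjTranspose]
    simp only [Matrix.mul_assoc]
  rw [h, Matrix.mul_apply, Complex.re_sum]
  refine Finset.sum_congr rfl fun k _ => ?_
  rw [Matrix.mul_diagonal, conjTranspose_apply]
  have e : (Uᴴ * V) i k * ((ψ k : ℝ) : ℂ) * star ((Uᴴ * V) i k)
      = ((ψ k : ℝ) : ℂ) * ((Uᴴ * V) i k * (starRingEnd ℂ) ((Uᴴ * V) i k)) := by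
    rw [RCLike.star_def]; ring
  rw [e, Complex.mul_conj', Complex.re_ofReal_mul]
  norm_cast

/-- `√(X*X)` for a Hermitian matrix -/
lemma cfc_sqrt_sq (X : Matrix ι ι ℂ) (hX : X.IsHermitian) (W : Matrix ι ι ℂ) (δ : ι → ℝ)
    (hf : ∀ f : ℝ → ℝ, cfc f X = C W (fun i => f (δ i))) :
    cfc Real.sqrt (Xᴴ * X) = C W (fun i => |δ i|) := by
  have hsa : IsSelfAdjoint X := hX
  have h1 : Xᴴ * X = cfc (fun x : ℝ => x ^ 2) X := by
    rw [cfc_pow_id (R := ℝ) X 2 hsa, pow_two]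
    rw [show Xᴴ = X from hX]
  rw [h1]
  have h2 := cfc_comp Real.sqrt (fun x : ℝ => x ^ 2) X hsa
    (Real.continuous_sqrt.continuousOn) ((continuous_pow 2).continuousOn)
  rw [← h2, hf]
  exact C_congr _ fun i => by
    show Real.sqrt ((δ i) ^ 2) = |δ i|
    exact Real.sqrt_sq_eq_abs _

lemma ns_le (U V : Matrix ι ι ℂ) (α β : ι → ℝ) (hU : Uᴴ * U = 1) (hU' : U * Uᴴ = 1)
    (hV : Vᴴ * V = 1) (hV' : V * Vᴴ = 1) (hα : ∀ i, 0 ≤ α i) (hβ : ∀ i, 0 ≤ β i) :
    ∑ i, ∑ k, min (α i) (β k) * ‖(Uᴴ * V) i k‖ ^ 2 ≤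
      tr (C U α + C V β)
        - tr (cfc Real.sqrt ((C U α - C V β)ᴴ * (C U α - C V β))) := by
  have hX : (C U α - C V β).IsHermitian := by
    show (C U α - C V β)ᴴ = C U α - C V β
    rw [conjTranspose_sub, C_herm, C_herm]
  obtain ⟨W, δ, hW, hW', hXC, hf⟩ := spec _ hX
  rw [cfc_sqrt_sq _ hX W δ hf, C_tr W hW]
  set E := C W (fun i => if 0 ≤ δ i then (1 : ℝ) else 0) with hE
  have hEH : Eᴴ = E := C_herm _ _
  have hEE : E * E = E := by
    rw [hE, C_mul W hW]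
    exact C_congr _ fun i => by split_ifs <;> simp
  obtain ⟨hE1, hE2⟩ := proj_compl E hEH hEE
  have e1 : tr ((C U α - C V β) * E) = ∑ i, δ i * (if 0 ≤ δ i then (1 : ℝ) else 0) := by
    rw [hXC, hE, C_mul W hW, C_tr W hW]
  have e2 : tr (C U α - C V β) = ∑ i, δ i := by rw [hXC, C_tr W hW]
  have e3 : ∑ i, |δ i| = 2 * tr ((C U α - C V β) * E) - tr (C U α - C V β) := by
    rw [e1, e2, Finset.mul_sum, ← Finset.sum_sub_distrib]
    refine Finset.sum_congr rfl fun i _ => ?_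
    split_ifs with h
    · rw [abs_of_nonneg h]; ring
    · rw [abs_of_neg (not_le.mp h)]; ring
  rw [e3, Matrix.sub_mul, tr_sub, tr_sub, tr_add]
  have a1 : tr (C U α) - tr (C U α * E) = ∑ i, ∑ k, α i * ‖(Uᴴ * (1 - E) * V) i k‖ ^ 2 := by
    have : tr (C U α) - tr (C U α * E) = tr (C U α * (1 - E)) := by
      rw [Matrix.mul_sub, tr_sub, Matrix.mul_one]
    rw [this, tr_C_mul]
    refine Finset.sum_congr rfl fun i _ => ?_
    rw [← Finset.mul_sum, row_sum U V (1 - E) hV', hE1, hE2]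
  have a2 : tr (C V β * E) = ∑ i, ∑ k, β k * ‖(Uᴴ * E * V) i k‖ ^ 2 := by
    rw [tr_C_mul, Finset.sum_comm]
    refine Finset.sum_congr rfl fun k _ => ?_
    rw [← Finset.mul_sum, col_sum V (Uᴴ * E)]
    congr 1
    have : (Uᴴ * E)ᴴ * (Uᴴ * E) = E := by
      rw [conjTranspose_mul, conjTranspose_conjTranspose, hEH]
      calc E * U * (Uᴴ * E) = E * (U * Uᴴ) * E := by simp only [Matrix.mul_assoc]
        _ = E := by rw [hU', Matrix.mul_one, hEE]
    rw [this]
  have key : ∑ i, ∑ k, min (α i) (β k) * ‖(Uᴴ * V) i k‖ ^ 2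
      ≤ 2 * ∑ i, ∑ k, α i * ‖(Uᴴ * (1 - E) * V) i k‖ ^ 2
        + 2 * ∑ i, ∑ k, β k * ‖(Uᴴ * E * V) i k‖ ^ 2 := by
    rw [Finset.mul_sum, Finset.mul_sum, ← Finset.sum_add_distrib]
    refine Finset.sum_le_sum fun i _ => ?_
    rw [Finset.mul_sum, Finset.mul_sum, ← Finset.sum_add_distrib]
    refine Finset.sum_le_sum fun k _ => ?_
    have hsplit : (Uᴴ * V) i k = (Uᴴ * (1 - E) * V) i k + (Uᴴ * E * V) i k := by
      rw [← Matrix.add_apply]
      rw [← Matrix.add_mul, ← Matrix.mul_add, sub_add_cancel, Matrix.mul_one]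
    set x := (Uᴴ * (1 - E) * V) i k
    set y := (Uᴴ * E * V) i k
    rw [hsplit]
    have hm0 : 0 ≤ min (α i) (β k) := le_min (hα i) (hβ k)
    have h1 : ‖x + y‖ ^ 2 ≤ 2 * ‖x‖ ^ 2 + 2 * ‖y‖ ^ 2 := by
      have h := norm_add_le x y
      nlinarith [norm_nonneg (x + y), norm_nonneg x, norm_nonneg y, sq_nonneg (‖x‖ - ‖y‖)]
    have h2 := mul_le_mul_of_nonneg_left h1 hm0
    have h3 : min (α i) (β k) * ‖x‖ ^ 2 ≤ α i * ‖x‖ ^ 2 :=
      mul_le_mul_of_nonneg_right (min_le_left _ _) (sq_nonneg _)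
    have h4 : min (α i) (β k) * ‖y‖ ^ 2 ≤ β k * ‖y‖ ^ 2 :=
      mul_le_mul_of_nonneg_right (min_le_right _ _) (sq_nonneg _)
    nlinarith
  rw [← a1, ← a2] at key
  linarith

lemma tr_eq_dg (W : Matrix ι ι ℂ) (hW' : W * Wᴴ = 1) (X : Matrix ι ι ℂ) :
    tr X = ∑ i, dg W X i := by
  have h := tr_C_mul W X (fun _ => 1)
  rw [C_one W hW', Matrix.one_mul] at h
  rw [h]
  exact Finset.sum_congr rfl fun i _ => one_mul _

/-- `∑ Tr A_j F_j ≤ Tr √(∑ A_j²)` for positive `F_j` with `∑ F_j ≤ 1`. -/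
lemma sum_tr_le {n : ℕ} (A F : Fin n → Matrix ι ι ℂ) (hA : ∀ j, (A j).IsHermitian)
    (hF : ∀ j, (F j).PosSemidef) (hF1 : (1 - ∑ j, F j).PosSemidef) :
    ∑ j, tr (A j * F j) ≤ tr (cfc Real.sqrt (∑ j, A j ^ 2)) := by
  have hG : (∑ j, A j ^ 2).PosSemidef := by
    refine posSemidef_sum _ fun j _ => ?_
    have h := posSemidef_conjTranspose_mul_self (A j)
    rw [show (A j)ᴴ = A j from hA j, ← pow_two] at h
    exact h
  obtain ⟨W, g, hW, hW', hg, hGC, hf⟩ := spec_psd _ hG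
  rw [hf, C_tr W hW]
  have hFle : ∀ j, (1 - F j).PosSemidef := by
    intro j
    have e : 1 - F j = (1 - ∑ k, F k) + ∑ k ∈ Finset.univ.erase j, F k := by
      rw [← Finset.add_sum_erase Finset.univ F (Finset.mem_univ j)]
      abel
    rw [e]
    exact hF1.add (posSemidef_sum _ fun k _ => hF k)
  have e1 : ∑ j, tr (A j * F j) = ∑ i, ∑ j, dg W (A j * F j) i := by
    rw [Finset.sum_comm]
    exact Finset.sum_congr rfl fun j _ => tr_eq_dg W hW' _
  rw [e1]
  refine Finset.sum_le_sum fun i _ => ?_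
  have h1 : ∀ j, dg W (A j * F j) i ≤ ∑ l, ‖(A j * W) l i‖ * ‖(F j * W) l i‖ := by
    intro j
    unfold dg
    have e : Wᴴ * (A j * F j) * W = (A j * W)ᴴ * (F j * W) := by
      rw [conjTranspose_mul, show (A j)ᴴ = A j from hA j]
      simp only [Matrix.mul_assoc]
    rw [e, Matrix.mul_apply, Complex.re_sum]
    refine Finset.sum_le_sum fun l _ => ?_
    refine le_trans (Complex.re_le_norm _) ?_
    rw [norm_mul, conjTranspose_apply, norm_star]
  have h2 : ∑ j, dg W (A j * F j) i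
      ≤ ∑ p : Fin n × ι, ‖(A p.1 * W) p.2 i‖ * ‖(F p.1 * W) p.2 i‖ := by
    rw [Fintype.sum_prod_type]
    exact Finset.sum_le_sum fun j _ => h1 j
  refine le_trans h2 ?_
  refine le_trans (Real.sum_mul_le_sqrt_mul_sqrt Finset.univ _ _) ?_
  rw [Fintype.sum_prod_type, Fintype.sum_prod_type]
  have e3 : ∑ j, ∑ l, ‖(A j * W) l i‖ ^ 2 = g i := by
    have : ∀ j, ∑ l, ‖(A j * W) l i‖ ^ 2 = dg W (A j ^ 2) i := by
      intro j
      rw [col_sum, show (A j)ᴴ = A j from hA j, pow_two]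
    rw [Finset.sum_congr rfl fun j _ => this j, ← dg_sum, hGC, C_entry W hW]
  have e4 : ∑ j, ∑ l, ‖(F j * W) l i‖ ^ 2 ≤ 1 := by
    have : ∀ j, ∑ l, ‖(F j * W) l i‖ ^ 2 ≤ dg W (F j) i := by
      intro j
      rw [col_sum, show (F j)ᴴ = F j from (hF j).isHermitian]
      have h := dg_nonneg W _ (sq_le_self (F j) (hF j) (hFle j)) i
      rw [dg_sub] at h
      linarith
    refine le_trans (Finset.sum_le_sum fun j _ => this j) ?_
    rw [← dg_sum]
    have h := dg_nonneg W _ hF1 i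
    rw [dg_sub, dg_one W hW] at h
    linarith
  rw [e3]
  calc Real.sqrt (g i) * Real.sqrt (∑ j, ∑ l, ‖(F j * W) l i‖ ^ 2)
      ≤ Real.sqrt (g i) * 1 := by
        refine mul_le_mul_of_nonneg_left ?_ (Real.sqrt_nonneg _)
        rw [← Real.sqrt_one]
        exact Real.sqrt_le_sqrt e4
    _ = _ := mul_one _

end pair

section levels

lemma exists_level (n : ℕ) (V : ℝ) (j : ℕ) (hj : j < n) (a : ℝ) (ha : 0 < a)
    (haV : a ≤ V / 5 ^ j) :
    ∃ m : ℕ, m % n = j ∧ a ≤ V / 5 ^ m ∧ V / 5 ^ m ≤ 5 ^ n * a := by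
  classical
  have hn : 0 < n := lt_of_le_of_lt (Nat.zero_le _) hj
  have hV : 0 < V := by
    by_contra hneg
    have : V / 5 ^ j ≤ 0 := div_nonpos_of_nonpos_of_nonneg (not_lt.mp hneg) (by positivity)
    linarith
  have hex : ∃ k : ℕ, V / 5 ^ (n * k + j) < a := by
    obtain ⟨k, hk⟩ := exists_pow_lt_of_lt_one (div_pos ha hV) (show (1 / 5 : ℝ) < 1 by norm_num)
    refine ⟨k, ?_⟩
    have h1 : V / 5 ^ k < a := by
      rw [one_div, inv_pow, lt_div_iff₀ hV] at hk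
      rw [div_eq_inv_mul]
      exact hk
    refine lt_of_le_of_lt ?_ h1
    apply div_le_div_of_nonneg_left hV.le (by positivity)
    apply pow_le_pow_right₀ (by norm_num)
    nlinarith
  have hk0 : Nat.find hex ≠ 0 := by
    intro h0
    have h := Nat.find_spec hex
    rw [h0, Nat.mul_zero, Nat.zero_add] at h
    linarith
  obtain ⟨k, hk⟩ := Nat.exists_eq_succ_of_ne_zero hk0
  have h1 := Nat.find_spec hex
  have h2 := Nat.find_min hex (m := k) (by omega)
  rw [hk] at h1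
  refine ⟨n * k + j, ?_, not_lt.mp h2, ?_⟩
  · rw [Nat.mul_add_mod]
    exact Nat.mod_eq_of_lt hj
  · have e : V / 5 ^ (n * k + j) = 5 ^ n * (V / 5 ^ (n * (k + 1) + j)) := by
      have : n * (k + 1) + j = n + (n * k + j) := by ring
      rw [this, pow_add, pow_add]
      field_simp
      ring
    rw [e]
    exact mul_le_mul_of_nonneg_left h1.le (by positivity)

/-- splitting a double sum -/
lemma double_sum {n : ℕ} (B : Fin n → Fin n → ℝ) :
    ∑ j, ∑ k, B j k = ∑ j, ∑ k ∈ Finset.Ioi j, (B j k + B k j) + ∑ j, B j j := by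
  have h1 : ∀ j, ∑ k, B j k = ∑ k, (if j < k then B j k else 0)
      + ∑ k, (if k < j then B j k else 0) + B j j := by
    intro j
    have : B j j = ∑ k, (if k = j then B j k else 0) := by simp
    rw [this, ← Finset.sum_add_distrib, ← Finset.sum_add_distrib]
    refine Finset.sum_congr rfl fun k _ => ?_
    rcases lt_trichotomy j k with h | h | h
    · simp [h, h.not_gt, h.ne']
    · simp [h]
    · simp [h, h.not_gt, h.ne]
  rw [Finset.sum_congr rfl fun j _ => h1 j, Finset.sum_add_distrib, Finset.sum_add_distrib,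
    Finset.sum_comm (f := fun j k => if k < j then B j k else 0), ← Finset.sum_add_distrib]
  congr 1
  refine Finset.sum_congr rfl fun j _ => ?_
  rw [← Finset.sum_add_distrib, ← Finset.filter_lt_eq_Ioi, Finset.sum_filter]
  refine Finset.sum_congr rfl fun k _ => ?_
  split_ifs <;> simp

end levels

section assembly
variable {ι : Type*} [Fintype ι] [DecidableEq ι]

/-- Combinatorial bookkeeping: the quadratic form of the levels is bounded by the pair terms. -/
lemma pair_bound {n : ℕ} (U : Fin n → Matrix ι ι ℂ) (hU : ∀ j, (U j)ᴴ * U j = 1)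
    (α : Fin n → ι → ℝ) (v : ℕ → ℝ) (hv : ∀ s, 0 ≤ v s) (hanti : ∀ s t, s ≤ t → v t ≤ v s)
    (lev : Fin n → ι → ℕ)
    (hlev : ∀ j i, 0 < α j i → lev j i % n = j ∧ v (lev j i) ≤ 5 ^ n * α j i)
    (h0 : ∀ j i, 0 ≤ α j i) :
    ∑ j, ∑ i, (if 0 < α j i then v (lev j i) * ∑ j', ∑ k,
        (if 0 < α j' k ∧ lev j' k < lev j i then ‖((U j)ᴴ * U j') i k‖ ^ 2 else 0) else 0)
      ≤ 5 ^ n * ∑ j, ∑ j' ∈ Finset.Ioi j,
        ∑ i, ∑ k, min (α j i) (α j' k) * ‖((U j)ᴴ * U j') i k‖ ^ 2 := by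
  classical
  set B : Fin n → Fin n → ℝ := fun j j' => ∑ i, ∑ k,
    (if 0 < α j i ∧ 0 < α j' k ∧ lev j' k < lev j i then
      v (lev j i) * ‖((U j)ᴴ * U j') i k‖ ^ 2 else 0) with hB
  have e1 : ∑ j, ∑ i, (if 0 < α j i then v (lev j i) * ∑ j', ∑ k,
        (if 0 < α j' k ∧ lev j' k < lev j i then ‖((U j)ᴴ * U j') i k‖ ^ 2 else 0) else 0)
      = ∑ j, ∑ j', B j j' := by
    refine Finset.sum_congr rfl fun j _ => ?_
    simp only [hB]
    rw [Finset.sum_comm]
    refine Finset.sum_congr rfl fun i _ => ?_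
    split_ifs with h
    · rw [Finset.mul_sum]
      refine Finset.sum_congr rfl fun j' _ => ?_
      rw [Finset.mul_sum]
      refine Finset.sum_congr rfl fun k _ => ?_
      simp only [h, true_and]
      split_ifs <;> simp
    · symm
      refine Finset.sum_eq_zero fun j' _ => Finset.sum_eq_zero fun k _ => ?_
      simp [h]
  rw [e1, double_sum]
  have e2 : ∀ j, B j j = 0 := by
    intro j
    refine Finset.sum_eq_zero fun i _ => Finset.sum_eq_zero fun k _ => ?_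
    split_ifs with h
    · have hne : i ≠ k := by
        rintro rfl
        exact lt_irrefl _ h.2.2
      rw [hU j, Matrix.one_apply_ne hne]
      simp
    · rfl
  have e3 : ∀ j j', j < j' → B j j' + B j' j ≤ 5 ^ n *
      ∑ i, ∑ k, min (α j i) (α j' k) * ‖((U j)ᴴ * U j') i k‖ ^ 2 := by
    intro j j' hjj
    have e4 : B j' j = ∑ i, ∑ k, (if 0 < α j' k ∧ 0 < α j i ∧ lev j i < lev j' k then
      v (lev j' k) * ‖((U j)ᴴ * U j') i k‖ ^ 2 else 0) := by
      simp only [hB]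
      rw [Finset.sum_comm]
      refine Finset.sum_congr rfl fun i _ => Finset.sum_congr rfl fun k _ => ?_
      have : ‖((U j')ᴴ * U j) k i‖ = ‖((U j)ᴴ * U j') i k‖ := by
        have h : ((U j')ᴴ * U j) k i = star (((U j)ᴴ * U j') i k) := by
          rw [← conjTranspose_apply, conjTranspose_mul, conjTranspose_conjTranspose]
        rw [h, norm_star]
      rw [this]
    rw [e4, ← Finset.sum_add_distrib, Finset.mul_sum]
    refine Finset.sum_le_sum fun i _ => ?_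
    rw [← Finset.sum_add_distrib, Finset.mul_sum]
    refine Finset.sum_le_sum fun k _ => ?_
    set w := ‖((U j)ᴴ * U j') i k‖ ^ 2 with hw
    have hw0 : 0 ≤ w := sq_nonneg _
    have hm0 : 0 ≤ min (α j i) (α j' k) := le_min (h0 _ _) (h0 _ _)
    have h5 : (0 : ℝ) ≤ 5 ^ n := by positivity
    by_cases c1 : 0 < α j i ∧ 0 < α j' k
    · have hl1 := hlev j i c1.1
      have hl2 := hlev j' k c1.2
      have b : ∀ m, v m ≤ 5 ^ n * α j i → v m ≤ 5 ^ n * α j' k →
          v m * w ≤ 5 ^ n * (min (α j i) (α j' k) * w) := by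
        intro m m1 m2
        rw [← mul_assoc]
        refine mul_le_mul_of_nonneg_right ?_ hw0
        rw [mul_min_of_nonneg _ _ h5]
        exact le_min m1 m2
      rcases lt_trichotomy (lev j i) (lev j' k) with c | c | c
      · rw [if_neg (fun h => absurd h.2.2 c.not_gt), if_pos ⟨c1.2, c1.1, c⟩, zero_add]
        exact b _ (le_trans (hanti _ _ c.le) hl1.2) hl2.2
      · rw [if_neg (fun h => absurd h.2.2 (by omega)), if_neg (fun h => absurd h.2.2 (by omega)),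
          zero_add]
        positivity
      · rw [if_pos ⟨c1.1, c1.2, c⟩, if_neg (fun h => absurd h.2.2 c.not_gt), add_zero]
        exact b _ hl1.2 (le_trans (hanti _ _ c.le) hl2.2)
    · rw [if_neg (fun h => c1 ⟨h.1, h.2.1⟩), if_neg (fun h => c1 ⟨h.2.1, h.1⟩), zero_add]
      positivity
  rw [Finset.sum_eq_zero (s := Finset.univ) (f := fun j => B j j) (fun j _ => e2 j), add_zero,
    Finset.mul_sum]
  refine Finset.sum_le_sum fun j _ => ?_
  rw [Finset.mul_sum]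
  refine Finset.sum_le_sum fun j' hj' => ?_
  exact e3 j j' (Finset.mem_Ioi.mp hj')

lemma main_bound {n : ℕ} (hn : 0 < n) (U : Fin n → Matrix ι ι ℂ) (hU : ∀ j, (U j)ᴴ * U j = 1)
    (α : Fin n → ι → ℝ) (h0 : ∀ j i, 0 ≤ α j i) :
    ∑ j, tr (C (U j) (α j)) - tr (cfc Real.sqrt (∑ j, C (U j) (α j) ^ 2))
      ≤ 8 * 5 ^ n * ∑ j, ∑ j' ∈ Finset.Ioi j,
        ∑ i, ∑ k, min (α j i) (α j' k) * ‖((U j)ᴴ * U j') i k‖ ^ 2 := by
  classical
  set V : ℝ := 5 ^ n * (1 + ∑ j, ∑ i, α j i) with hV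
  have hsum0 : 0 ≤ ∑ j, ∑ i, α j i :=
    Finset.sum_nonneg fun j _ => Finset.sum_nonneg fun i _ => h0 j i
  have hVpos : 0 < V := by positivity
  have hα : ∀ (j : Fin n) i, α j i ≤ V / 5 ^ (j : ℕ) := by
    intro j i
    have h1 : α j i ≤ ∑ j, ∑ i, α j i := by
      refine le_trans (Finset.single_le_sum (f := fun i => α j i) (fun i _ => h0 j i)
        (Finset.mem_univ i)) ?_
      exact Finset.single_le_sum (f := fun j => ∑ i, α j i)
        (fun j _ => Finset.sum_nonneg fun i _ => h0 j i) (Finset.mem_univ j)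
    have h2 : (5 : ℝ) ^ (j : ℕ) ≤ 5 ^ n := pow_le_pow_right₀ (by norm_num) j.2.le
    rw [le_div_iff₀ (by positivity), hV]
    nlinarith [mul_le_mul h1 h2 (by positivity) hsum0, show (0:ℝ) < 5 ^ n by positivity]
  have hex : ∀ (j : Fin n) i, ∃ m : ℕ, 0 < α j i →
      (m % n = j ∧ α j i ≤ V / 5 ^ m ∧ V / 5 ^ m ≤ 5 ^ n * α j i) := by
    intro j i
    by_cases h : 0 < α j i
    · obtain ⟨m, hm⟩ := exists_level n V j j.2 (α j i) h (hα j i)
      exact ⟨m, fun _ => hm⟩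
    · exact ⟨0, fun h' => absurd h' h⟩
  choose lev hlev using hex
  set v : ℕ → ℝ := fun s => V / 5 ^ s with hv
  have hv0 : ∀ s, 0 ≤ v s := fun s => by simp only [hv]; positivity
  have hv5 : ∀ s, v s = 5 * v (s + 1) := by
    intro s
    simp only [hv]
    rw [pow_succ]
    field_simp
  have hanti : ∀ s t, s ≤ t → v t ≤ v s := by
    intro s t hst
    exact div_le_div_of_nonneg_left hVpos.le (by positivity) (pow_le_pow_right₀ (by norm_num) hst)
  obtain ⟨M, hM⟩ : ∃ M : ℕ, ∀ j i, lev j i < M := by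
    refine ⟨(∑ j, ∑ i, lev j i) + 1, fun j i => Nat.lt_succ_of_le ?_⟩
    refine le_trans (Finset.single_le_sum (f := fun i => lev j i) (fun i _ => Nat.zero_le _)
        (Finset.mem_univ i)) ?_
    exact Finset.single_le_sum (f := fun j => ∑ i, lev j i)
        (fun j _ => Nat.zero_le _) (Finset.mem_univ j)
  set lab : ℕ → Fin n := fun s => ⟨s % n, Nat.mod_lt s hn⟩ with hlab
  set χ : ℕ → ι → ℝ := fun s i => if 0 < α (lab s) i ∧ lev (lab s) i = s then 1 else 0 with hχ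
  set Q : ℕ → Matrix ι ι ℂ := fun s => C (U (lab s)) (χ s) with hQ
  have hQH : ∀ s, (Q s)ᴴ = Q s := fun s => C_herm _ _
  have hQQ : ∀ s, Q s * Q s = Q s := by
    intro s
    simp only [hQ]
    rw [C_mul _ (hU _)]
    exact C_congr _ fun i => by simp only [hχ]; split_ifs <;> simp
  obtain ⟨E, hE0, hE1, hE2⟩ := main_seq Q hQH hQQ v hv0 hv5 M
  -- conversions
  have conv1 : ∀ (s : ℕ) (f : Fin n → ι → ℝ), ∑ i, χ s i * f (lab s) i
      = ∑ j, ∑ i, (if 0 < α j i ∧ lev j i = s then f j i else 0) := by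
    intro s f
    rw [Finset.sum_eq_single (lab s)]
    · refine Finset.sum_congr rfl fun i _ => ?_
      simp only [hχ]
      split_ifs <;> simp
    · intro j _ hj
      refine Finset.sum_eq_zero fun i _ => ?_
      rw [if_neg]
      rintro ⟨h1, h2⟩
      apply hj
      have h3 := (hlev j i h1).1
      rw [h2] at h3
      exact (Fin.ext h3).symm
    · intro h
      exact absurd (Finset.mem_univ _) h
  have conv2 : ∀ f : ℕ → Fin n → ι → ℝ,
      ∑ s ∈ Finset.range M, v s * ∑ i, χ s i * f s (lab s) i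
        = ∑ j, ∑ i, (if 0 < α j i then v (lev j i) * f (lev j i) j i else 0) := by
    intro f
    have h1 : ∀ s ∈ Finset.range M, v s * ∑ i, χ s i * f s (lab s) i
        = ∑ j, ∑ i, (if lev j i = s then (if 0 < α j i then v (lev j i) * f (lev j i) j i else 0)
          else 0) := by
      intro s _
      rw [conv1, Finset.mul_sum]
      refine Finset.sum_congr rfl fun j _ => ?_
      rw [Finset.mul_sum]
      refine Finset.sum_congr rfl fun i _ => ?_
      by_cases c1 : lev j i = s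
      · by_cases c2 : 0 < α j i
        · simp [c1, c2]
        · simp [c2]
      · simp [c1]
    rw [Finset.sum_congr rfl h1, Finset.sum_comm]
    refine Finset.sum_congr rfl fun j _ => ?_
    rw [Finset.sum_comm]
    refine Finset.sum_congr rfl fun i _ => ?_
    rw [Finset.sum_ite_eq, if_pos (Finset.mem_range.mpr (hM j i))]
  -- the right-hand side
  have hT : ∑ s ∈ Finset.range M, v s * ∑ t ∈ Finset.range s, tr (Q s * Q t)
      ≤ 5 ^ n * ∑ j, ∑ j' ∈ Finset.Ioi j,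
        ∑ i, ∑ k, min (α j i) (α j' k) * ‖((U j)ᴴ * U j') i k‖ ^ 2 := by
    have h1 : ∀ s ∈ Finset.range M, v s * ∑ t ∈ Finset.range s, tr (Q s * Q t)
        = v s * ∑ i, χ s i * ((fun (s : ℕ) (j : Fin n) (i : ι) => ∑ j', ∑ k,
          (if 0 < α j' k ∧ lev j' k < s then ‖((U j)ᴴ * U j') i k‖ ^ 2 else 0)) s (lab s) i) := by
      intro s _
      congr 1
      have h2 : ∀ t ∈ Finset.range s, tr (Q s * Q t) = ∑ i, χ s i * ∑ j', ∑ k,
          (if 0 < α j' k ∧ lev j' k = t then ‖((U (lab s))ᴴ * U j') i k‖ ^ 2 else 0) := by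
        intro t _
        simp only [hQ]
        rw [tr_C_mul]
        refine Finset.sum_congr rfl fun i _ => ?_
        rw [dg_C, conv1 t (fun j' k => ‖((U (lab s))ᴴ * U j') i k‖ ^ 2)]
      rw [Finset.sum_congr rfl h2, Finset.sum_comm]
      refine Finset.sum_congr rfl fun i _ => ?_
      rw [← Finset.mul_sum]
      congr 1
      rw [Finset.sum_comm]
      refine Finset.sum_congr rfl fun j' _ => ?_
      rw [Finset.sum_comm]
      refine Finset.sum_congr rfl fun k _ => ?_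
      by_cases c : 0 < α j' k
      · simp only [c, true_and]
        rw [Finset.sum_ite_eq]
        simp only [Finset.mem_range]
      · simp [c]
    rw [Finset.sum_congr rfl h1]
    refine le_trans (le_of_eq (conv2 (fun (s : ℕ) (j : Fin n) (i : ι) => ∑ j', ∑ k,
          (if 0 < α j' k ∧ lev j' k < s then ‖((U j)ᴴ * U j') i k‖ ^ 2 else 0)))) ?_
    exact pair_bound U hU α v hv0 hanti lev
      (fun j i h => ⟨(hlev j i h).1, (hlev j i h).2.2⟩) h0
  -- the left-hand side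
  set F : Fin n → Matrix ι ι ℂ := fun j => ∑ s ∈ (Finset.range M).filter (fun s => lab s = j), E s
    with hF
  have hF0 : ∀ j, (F j).PosSemidef := fun j => posSemidef_sum _ fun s _ => hE0 s
  have hFs : ∑ j, F j = ∑ s ∈ Finset.range M, E s := by
    simp only [hF]
    exact Finset.sum_fiberwise _ _ _
  have hF1 : (1 - ∑ j, F j).PosSemidef := by rw [hFs]; exact hE1
  have hCS := sum_tr_le (fun j => C (U j) (α j)) F (fun j => C_herm _ _) hF0 hF1
  have hL : ∑ j, tr (C (U j) (α j)) - ∑ j, tr (C (U j) (α j) * F j)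
      ≤ ∑ s ∈ Finset.range M, v s * tr (Q s * (1 - E s)) := by
    have h1 : ∀ s ∈ Finset.range M, v s * tr (Q s * (1 - E s))
        = v s * ∑ i, χ s i * ((fun (s : ℕ) (j : Fin n) (i : ι) => 1 - dg (U j) (E s) i)
          s (lab s) i) := by
      intro s _
      congr 1
      simp only [hQ]
      rw [tr_C_mul]
      refine Finset.sum_congr rfl fun i _ => ?_
      rw [dg_sub, dg_one _ (hU _)]
    rw [Finset.sum_congr rfl h1]
    refine le_trans ?_ (le_of_eq
      (conv2 (fun (s : ℕ) (j : Fin n) (i : ι) => 1 - dg (U j) (E s) i)).symm)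
    rw [← Finset.sum_sub_distrib]
    refine Finset.sum_le_sum fun j _ => ?_
    rw [C_tr _ (hU j), tr_C_mul, ← Finset.sum_sub_distrib]
    refine Finset.sum_le_sum fun i _ => ?_
    split_ifs with h
    · have hl := hlev j i h
      have hd : dg (U j) (E (lev j i)) i ≤ dg (U j) (F j) i := by
        simp only [hF]
        rw [dg_sum]
        refine Finset.single_le_sum (f := fun s => dg (U j) (E s) i)
          (fun s _ => dg_nonneg _ _ (hE0 s) i) ?_
        rw [Finset.mem_filter, Finset.mem_range]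
        exact ⟨hM j i, Fin.ext hl.1⟩
      have hd1 : dg (U j) (E (lev j i)) i ≤ 1 := by
        have h2 := dg_nonneg (U j) _ hE1 i
        rw [dg_sub, dg_one _ (hU j), dg_sum] at h2
        have h3 : dg (U j) (E (lev j i)) i ≤ ∑ s ∈ Finset.range M, dg (U j) (E s) i :=
          Finset.single_le_sum (f := fun s => dg (U j) (E s) i)
            (fun s _ => dg_nonneg _ _ (hE0 s) i) (Finset.mem_range.mpr (hM j i))
        linarith
      have hv1 : α j i ≤ v (lev j i) := hl.2.1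
      calc α j i - α j i * dg (U j) (F j) i = α j i * (1 - dg (U j) (F j) i) := by ring
        _ ≤ α j i * (1 - dg (U j) (E (lev j i)) i) :=
          mul_le_mul_of_nonneg_left (by linarith) (h0 j i)
        _ ≤ v (lev j i) * (1 - dg (U j) (E (lev j i)) i) :=
          mul_le_mul_of_nonneg_right hv1 (by linarith)
    · have : α j i = 0 := le_antisymm (not_lt.mp h) (h0 j i)
      rw [this]
      simp
  have h8 := mul_le_mul_of_nonneg_left hT (show (0 : ℝ) ≤ 8 by norm_num)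
  linarith

end assembly

/-- `Tr √M` for a positive semidefinite matrix `M` (functional calculus of the square root). -/
noncomputable def trSqrt {d : ℕ} (M : Matrix (Fin d) (Fin d) ℂ) : ℝ :=
  (cfc Real.sqrt M).trace.re

/-- Trace norm `‖X‖₁ = Tr √(X*X)`. -/
noncomputable def traceNorm {d : ℕ} (X : Matrix (Fin d) (Fin d) ℂ) : ℝ := trSqrt (Xᴴ * X)

/-- `L(A) = Tr √(∑ A_j²) - ∑ Tr A_j`. -/
noncomputable def L {n d : ℕ} (A : Fin n → Matrix (Fin d) (Fin d) ℂ) : ℝ :=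
  trSqrt (∑ j, A j ^ 2) - ∑ j, (A j).trace.re

/-- `R(A) = ∑_{j<k} (‖A_j - A_k‖₁ - Tr(A_j + A_k))`. -/
noncomputable def R {n d : ℕ} (A : Fin n → Matrix (Fin d) (Fin d) ℂ) : ℝ :=
  ∑ j, ∑ k ∈ Finset.Ioi j, (traceNorm (A j - A k) - (A j + A k).trace.re)

/-- Sanity check: for a positive semidefinite `M`, `cfc Real.sqrt M` is the positive square root. -/
lemma sqrt_spec {d : ℕ} (M : Matrix (Fin d) (Fin d) ℂ) (hM : M.PosSemidef) :
    (cfc Real.sqrt M).PosSemidef ∧ cfc Real.sqrt M * cfc Real.sqrt M = M := by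
  obtain ⟨U, x, hU, hU', hx, hMC, hf⟩ := spec_psd M hM
  rw [hf]
  refine ⟨C_psd _ _ fun i => Real.sqrt_nonneg _, ?_⟩
  rw [C_mul U hU]
  refine (C_congr U fun i => Real.mul_self_sqrt (hx i)).trans hMC.symm

/-- For every `n ≥ 1` the inequality `L ≥ c R` holds with `c = 8 * 5 ^ n`, for all positive
matrices in all dimensions. -/
theorem result (n : ℕ) (hn : 1 ≤ n) :
    ∃ c : ℝ, 0 < c ∧ c = 8 * 5 ^ n ∧
      ∀ (d : ℕ) (A : Fin n → Matrix (Fin d) (Fin d) ℂ), (∀ j, (A j).PosSemidef) →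
        L A ≥ c * R A := by
  refine ⟨8 * 5 ^ n, by positivity, rfl, fun d A hA => ?_⟩
  choose U α hU hU' hα hAC _ using fun j => spec_psd (A j) (hA j)
  have h1 := main_bound hn U hU α hα
  have h2 : ∑ j, ∑ j' ∈ Finset.Ioi j,
        ∑ i, ∑ k, min (α j i) (α j' k) * ‖((U j)ᴴ * U j') i k‖ ^ 2 ≤ - R A := by
    unfold R
    rw [← Finset.sum_neg_distrib]
    refine Finset.sum_le_sum fun j _ => ?_
    rw [← Finset.sum_neg_distrib]
    refine Finset.sum_le_sum fun k _ => ?_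
    have h := ns_le (U j) (U k) (α j) (α k) (hU j) (hU' j) (hU k) (hU' k) (hα j) (hα k)
    rw [← hAC j, ← hAC k] at h
    unfold traceNorm trSqrt
    unfold tr at h
    linarith
  have h3 : ∑ j, tr (C (U j) (α j)) - tr (cfc Real.sqrt (∑ j, C (U j) (α j) ^ 2)) = - L A := by
    unfold L trSqrt
    have e1 : ∀ j, tr (C (U j) (α j)) = (A j).trace.re := fun j => by rw [← hAC j]; rfl
    have e2 : ∑ j, C (U j) (α j) ^ 2 = ∑ j, A j ^ 2 :=
      Finset.sum_congr rfl fun j _ => by rw [← hAC j]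
    rw [e2, Finset.sum_congr rfl fun j _ => e1 j]
    unfold tr
    ring
  rw [h3] at h1
  have h4 : (0 : ℝ) ≤ 8 * 5 ^ n := by positivity
  have h5 := mul_le_mul_of_nonneg_left h2 h4
  linarith

end Pool.Agent.Results.MP_ebd556_mp.MultivariateTrace
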