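import Mathlib

/-!
# A multivariate trace inequality for positive operators

For positive semidefinite `A₁, …, Aₙ` on `ℂ^d` put
`L = Tr √(∑ Aⱼ²) - ∑ Tr Aⱼ` and `R = ∑_{j<k} (‖Aⱼ - Aₖ‖₁ - Tr (Aⱼ + Aₖ))`.
We prove `L ≥ 8 (n + 1) R`, for every `n` and with no dependence on the dimension `d`.

Outline of the proof. Write `Aⱼ = ∑ᵢ λⱼᵢ |eⱼᵢ⟩⟨eⱼᵢ|` and `α = (j, i)`.
* Step 1 (`trace_sqrt_ge`): if `∑_α |⟨u_α, x⟩|² ≤ ‖x‖²` for all `x`, then
  `∑_α λ_α Re ⟨u_α, e_α⟩ ≤ Tr √(∑ Aⱼ²)`.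
* Step 2 (`core`): split the indices `α` with `λ_α > 0` into cells (dyadic size class of `λ_α`, in
  decreasing order, and block `j`), and let `u_α = (1 - P) e_α`, with `P` the projection onto the
  span of all vectors of the earlier cells. The Bessel inequality needed in Step 1 telescopes.
* Step 3 (`norm_proj_le`, `sum_norm_sub_frameOp`): with `Y = ∑ |e_β⟩⟨e_β|` over earlier cells,
  `‖P v‖² ≤ 2 ⟨v, Y v⟩ + ‖(P - Y) v‖²`, and the Hilbert-Schmidt norm of `P - Y` is at most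
  `∑_{β ≠ γ} |⟨e_β, e_γ⟩|²`.
* Step 4 (`main_sum`): summing over the cells with geometric weights gives
  `-L ≤ (4 n + 4) ∑_{α, β in different blocks} min (λ_α, λ_β) |⟨e_α, e_β⟩|²`.
* Step 5 (`pair_bound`): `∑_{s,t} min (λ_s, μ_t) |⟨e_s, f_t⟩|² ≤ Tr (A + B) - ‖A - B‖₁`.
-/

open Finset

namespace Pool.Agent.Results.MP_ebd556_mp.TraceInequality

section Core

variable {E : Type*} [NormedAddCommGroup E] [InnerProductSpace ℂ E]

lemma norm_inner_symm' (x y : E) : ‖inner ℂ x y‖ = ‖inner ℂ y x‖ := by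
  rw [← inner_conj_symm, RCLike.norm_conj]

/-- The frame operator of a finite family. -/
noncomputable def frameOp {ι : Type*} (e : ι → E) (J : Finset ι) (v : E) : E :=
  ∑ β ∈ J, inner ℂ (e β) v • e β

lemma inner_frameOp {ι : Type*} (e : ι → E) (J : Finset ι) (v : E) :
    inner ℂ v (frameOp e J v) = ((∑ β ∈ J, ‖inner ℂ (e β) v‖ ^ 2 : ℝ) : ℂ) := by
  unfold frameOp
  rw [inner_sum]
  push_cast
  refine Finset.sum_congr rfl fun β _ => ?_
  rw [inner_smul_right, ← inner_conj_symm v (e β)]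
  rw [RCLike.mul_conj]
  simp

lemma frameOp_mem {ι : Type*} (e : ι → E) (J : Finset ι) (v : E) :
    frameOp e J v ∈ Submodule.span ℂ (e '' (J : Set ι)) := by
  unfold frameOp
  refine Submodule.sum_mem _ fun β hβ => Submodule.smul_mem _ _ (Submodule.subset_span ?_)
  exact ⟨β, hβ, rfl⟩

variable [FiniteDimensional ℂ E]

/-- Parseval for a projection: the squared norms of the projected basis vectors add up to the
dimension of the subspace. -/
lemma sum_norm_proj {κ : Type*} [Fintype κ] (b : OrthonormalBasis κ ℂ E) (K : Submodule ℂ E) :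
    ∑ i, ‖K.starProjection (b i)‖ ^ 2 = (Module.finrank ℂ K : ℝ) := by
  classical
  let h := stdOrthonormalBasis ℂ K
  have h1 : ∀ x : E, ‖K.starProjection x‖ ^ 2 = ∑ k, ‖inner ℂ ((h k : K) : E) x‖ ^ 2 := by
    intro x
    have := h.sum_sq_norm_inner_right (K.orthogonalProjectionOnto x)
    rw [Submodule.starProjection_apply, Submodule.norm_coe, ← this]
    refine Finset.sum_congr rfl fun k _ => ?_
    rw [Submodule.inner_orthogonalProjectionOnto_eq_of_mem_left]
  simp_rw [h1]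
  rw [Finset.sum_comm]
  have h2 : ∀ k, ∑ i, ‖inner ℂ ((h k : K) : E) (b i)‖ ^ 2 = 1 := by
    intro k
    rw [b.sum_sq_norm_inner_left]
    have : ‖((h k : K) : E)‖ = 1 := by
      rw [Submodule.norm_coe]; exact h.orthonormal.1 k
    rw [this]; norm_num
  simp_rw [h2]
  simp

/-- exact expansion of `‖(P - Y) v‖²`. -/
lemma norm_sub_frameOp {ι : Type*} (e : ι → E) (J : Finset ι) (v : E) :
    ‖(Submodule.span ℂ (e '' (J : Set ι))).starProjection v - frameOp e J v‖ ^ 2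
      = ‖(Submodule.span ℂ (e '' (J : Set ι))).starProjection v‖ ^ 2
        - 2 * (∑ β ∈ J, ‖inner ℂ (e β) v‖ ^ 2) + ‖frameOp e J v‖ ^ 2 := by
  set K := Submodule.span ℂ (e '' (J : Set ι)) with hK
  rw [@norm_sub_sq ℂ]
  have : inner ℂ (K.starProjection v) (frameOp e J v) = inner ℂ v (frameOp e J v) := by
    rw [Submodule.inner_starProjection_left_eq_right]
    congr 1
    exact Submodule.starProjection_eq_self_iff.mpr (frameOp_mem e J v)
  rw [this, inner_frameOp]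
  have h2 : RCLike.re (((∑ β ∈ J, ‖inner ℂ (e β) v‖ ^ 2 : ℝ) : ℂ))
      = ∑ β ∈ J, ‖inner ℂ (e β) v‖ ^ 2 := RCLike.ofReal_re (K := ℂ) _
  rw [h2]

lemma norm_proj_le {ι : Type*} (e : ι → E) (J : Finset ι) (v : E) :
    ‖(Submodule.span ℂ (e '' (J : Set ι))).starProjection v‖ ^ 2
      ≤ 2 * (∑ β ∈ J, ‖inner ℂ (e β) v‖ ^ 2)
        + ‖(Submodule.span ℂ (e '' (J : Set ι))).starProjection v - frameOp e J v‖ ^ 2 := by
  rw [norm_sub_frameOp]
  nlinarith [sq_nonneg ‖frameOp e J v‖]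

omit [FiniteDimensional ℂ E] in
/-- `∑ᵢ ‖Y bᵢ‖² = ∑_{β,β'} |⟨e_β, e_β'⟩|²`. -/
lemma sum_norm_frameOp {ι κ : Type*} [Fintype κ] (b : OrthonormalBasis κ ℂ E)
    (e : ι → E) (J : Finset ι) :
    ∑ i, ‖frameOp e J (b i)‖ ^ 2 = ∑ β ∈ J, ∑ γ ∈ J, ‖inner ℂ (e β) (e γ)‖ ^ 2 := by
  have h1 : ∀ i, ((‖frameOp e J (b i)‖ ^ 2 : ℝ) : ℂ)
      = ∑ β ∈ J, ∑ γ ∈ J, (inner ℂ (e γ) (e β)) * (inner ℂ (e β) (b i) * inner ℂ (b i) (e γ)) := by
    intro i
    have h := inner_self_eq_norm_sq_to_K (𝕜 := ℂ) (frameOp e J (b i))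
    have h' : ((‖frameOp e J (b i)‖ ^ 2 : ℝ) : ℂ) = inner ℂ (frameOp e J (b i)) (frameOp e J (b i)) := by
      rw [h]; push_cast; rfl
    rw [h']
    unfold frameOp
    rw [sum_inner, Finset.sum_comm]
    refine Finset.sum_congr rfl fun γ _ => ?_
    rw [inner_sum]
    refine Finset.sum_congr rfl fun β _ => ?_
    rw [inner_smul_left, inner_smul_right, inner_conj_symm]
    ring
  have h2 : ((∑ i, ‖frameOp e J (b i)‖ ^ 2 : ℝ) : ℂ)
      = ((∑ β ∈ J, ∑ γ ∈ J, ‖inner ℂ (e β) (e γ)‖ ^ 2 : ℝ) : ℂ) := by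
    push_cast
    have : ∀ i, ((‖frameOp e J (b i)‖ : ℂ)) ^ 2
      = ∑ β ∈ J, ∑ γ ∈ J, (inner ℂ (e γ) (e β)) * (inner ℂ (e β) (b i) * inner ℂ (b i) (e γ)) := by
      intro i; rw [← h1 i]; push_cast; rfl
    simp_rw [this]
    rw [Finset.sum_comm]
    refine Finset.sum_congr rfl fun β _ => ?_
    rw [Finset.sum_comm]
    refine Finset.sum_congr rfl fun γ _ => ?_
    rw [← Finset.mul_sum, b.sum_inner_mul_inner]
    rw [← inner_conj_symm (e γ) (e β), RCLike.conj_mul]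
    simp
  exact_mod_cast h2

lemma sum_norm_sub_frameOp {ι κ : Type*} [DecidableEq ι] [Fintype κ] (b : OrthonormalBasis κ ℂ E)
    (e : ι → E) (J : Finset ι) (he : ∀ β ∈ J, ‖e β‖ = 1) :
    ∑ i, ‖(Submodule.span ℂ (e '' (J : Set ι))).starProjection (b i) - frameOp e J (b i)‖ ^ 2
      ≤ ∑ β ∈ J, ∑ γ ∈ J.erase β, ‖inner ℂ (e β) (e γ)‖ ^ 2 := by
  classical
  simp_rw [norm_sub_frameOp]
  rw [Finset.sum_add_distrib, Finset.sum_sub_distrib, sum_norm_proj, sum_norm_frameOp,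
    ← Finset.mul_sum, Finset.sum_comm]
  have h1 : ∀ β ∈ J, ∑ i, ‖inner ℂ (e β) (b i)‖ ^ 2 = 1 := by
    intro β hβ
    rw [b.sum_sq_norm_inner_left, he β hβ]; norm_num
  rw [Finset.sum_congr rfl h1]
  have h2 : ∀ β ∈ J, ∑ γ ∈ J, ‖inner ℂ (e β) (e γ)‖ ^ 2
      = 1 + ∑ γ ∈ J.erase β, ‖inner ℂ (e β) (e γ)‖ ^ 2 := by
    intro β hβ
    rw [← Finset.add_sum_erase _ _ hβ]
    congr 1
    rw [inner_self_eq_norm_sq_to_K, he β hβ]; norm_num
  rw [Finset.sum_congr rfl h2, Finset.sum_add_distrib]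
  have h3 : (Module.finrank ℂ (Submodule.span ℂ (e '' (J : Set ι))) : ℝ) ≤ J.card := by
    have h4 : e '' (J : Set ι) = ((J.image e : Finset E) : Set E) := by simp
    rw [h4]
    have := finrank_span_finset_le_card (R := ℂ) (J.image e)
    exact_mod_cast this.trans Finset.card_image_le
  simp only [Finset.sum_const, nsmul_eq_mul, mul_one]
  linarith


/-! ### Cells -/

lemma cell_sum_le {ν κ : Type*} [Fintype κ] (S : Finset (ν × κ))
    (hS : ∀ α ∈ S, ∀ β ∈ S, α.1 = β.1) (F : ν × κ → ℝ) (hF : ∀ α, 0 ≤ F α) (C : ℝ) (hC0 : 0 ≤ C)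
    (hC : ∀ j, ∑ i, F (j, i) ≤ C) : ∑ α ∈ S, F α ≤ C := by
  classical
  rcases S.eq_empty_or_nonempty with h | ⟨α₀, hα₀⟩
  · rw [h, Finset.sum_empty]; exact hC0
  · refine le_trans ?_ (hC α₀.1)
    have hinj : Function.Injective (fun i : κ => ((α₀.1, i) : ν × κ)) := by
      intro i i' h
      exact (Prod.mk.inj h).2
    have h1 : ∑ i, F (α₀.1, i) = ∑ α ∈ Finset.univ.image (fun i : κ => ((α₀.1, i) : ν × κ)), F α := by
      rw [Finset.sum_image (fun i _ i' _ h => hinj h)]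
    rw [h1]
    refine Finset.sum_le_sum_of_subset_of_nonneg ?_ (fun α _ _ => hF α)
    intro α hα
    refine Finset.mem_image.mpr ⟨α.2, Finset.mem_univ _, ?_⟩
    rw [hS α₀ hα₀ α hα]

/-- the indices of the selected vectors in cells before `m` -/
def before {ι : Type*} (T : Finset ι) (c : ι → ℕ) (m : ℕ) : Finset ι := T.filter (fun α => c α < m)

/-- the span of the selected vectors in cells before `m` -/
noncomputable def spanBefore {ι : Type*} (e : ι → E) (T : Finset ι) (c : ι → ℕ) (m : ℕ) :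
    Submodule ℂ E := Submodule.span ℂ (e '' ((before T c m : Finset ι) : Set ι))

omit [FiniteDimensional ℂ E] in
lemma spanBefore_mono {ι : Type*} (e : ι → E) (T : Finset ι) (c : ι → ℕ) {m m' : ℕ}
    (h : m ≤ m') : spanBefore e T c m ≤ spanBefore e T c m' := by
  unfold spanBefore
  refine Submodule.span_mono (Set.image_mono ?_)
  intro α hα
  simp only [before, Finset.coe_filter, Set.mem_ofPred_eq] at hα ⊢
  exact ⟨hα.1, lt_of_lt_of_le hα.2 h⟩

omit [FiniteDimensional ℂ E] in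
lemma mem_spanBefore {ι : Type*} (e : ι → E) (T : Finset ι) (c : ι → ℕ) {m : ℕ} {α : ι}
    (hα : α ∈ T) (h : c α < m) : e α ∈ spanBefore e T c m := by
  unfold spanBefore
  refine Submodule.subset_span ⟨α, ?_, rfl⟩
  simp only [before, Finset.coe_filter, Set.mem_ofPred_eq]
  exact ⟨hα, h⟩

/-- the orthogonal projection onto `spanBefore` -/
noncomputable def pr {ι : Type*} (e : ι → E) (T : Finset ι) (c : ι → ℕ) (m : ℕ) : E →L[ℂ] E :=
  (spanBefore e T c m).starProjection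

/-- the vector `u_α` -/
noncomputable def uVec {ι : Type*} (e : ι → E) (T : Finset ι) (c : ι → ℕ) (α : ι) : E :=
  e α - pr e T c (c α) (e α)

lemma cell_bessel {ν κ : Type*} [Fintype κ] (b : ν → OrthonormalBasis κ ℂ E)
    (T : Finset (ν × κ)) (c : ν × κ → ℕ) (hc : ∀ α ∈ T, ∀ β ∈ T, c α = c β → α.1 = β.1)
    (m : ℕ) (x : E) :
    ∑ α ∈ T.filter (fun α => c α = m), ‖inner ℂ (uVec (fun α => b α.1 α.2) T c α) x‖ ^ 2
      ≤ ‖pr (fun α => b α.1 α.2) T c (m + 1) x‖ ^ 2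
        - ‖pr (fun α => b α.1 α.2) T c m x‖ ^ 2 := by
  set e : ν × κ → E := fun α => b α.1 α.2 with he
  set P := pr e T c m with hP
  set Q := pr e T c (m + 1) with hQ
  have hPQ : ∀ y, P (Q y) = P y := by
    intro y
    have := Submodule.starProjection_comp_starProjection_of_le
      (spanBefore_mono e T c (Nat.le_succ m))
    have h2 := congrArg (fun f => f y) this
    simpa [hP, hQ, pr] using h2
  set y := Q x - P (Q x) with hy
  have hkey : ∀ α ∈ T.filter (fun α => c α = m), inner ℂ (uVec e T c α) x = inner ℂ (e α) y := by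
    intro α hα
    rw [Finset.mem_filter] at hα
    obtain ⟨hαT, hαm⟩ := hα
    have h1 : uVec e T c α = e α - P (e α) := by
      unfold uVec; rw [hαm]
    have h2 : Q (e α - P (e α)) = e α - P (e α) := by
      rw [hQ, pr]
      apply Submodule.starProjection_eq_self_iff.mpr
      refine Submodule.sub_mem _ (mem_spanBefore e T c hαT (by omega)) ?_
      exact spanBefore_mono e T c (Nat.le_succ m) (Submodule.starProjection_apply_mem _ _)
    rw [h1, ← h2, hQ, pr, Submodule.inner_starProjection_left_eq_right]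
    change inner ℂ (e α - P (e α)) (Q x) = _
    rw [inner_sub_left, hy, inner_sub_right]
    congr 1
    rw [hP, pr, Submodule.inner_starProjection_left_eq_right]
  have h3 : ∑ α ∈ T.filter (fun α => c α = m), ‖inner ℂ (uVec e T c α) x‖ ^ 2
      = ∑ α ∈ T.filter (fun α => c α = m), ‖inner ℂ (e α) y‖ ^ 2 :=
    Finset.sum_congr rfl fun α hα => by rw [hkey α hα]
  rw [h3]
  have h4 : ∑ α ∈ T.filter (fun α => c α = m), ‖inner ℂ (e α) y‖ ^ 2 ≤ ‖y‖ ^ 2 := by
    refine cell_sum_le _ ?_ _ (fun α => sq_nonneg _) _ (sq_nonneg _) ?_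
    · intro α hα β hβ
      rw [Finset.mem_filter] at hα hβ
      exact hc α hα.1 β hβ.1 (hα.2.trans hβ.2.symm)
    · intro j
      exact ((b j).sum_sq_norm_inner_right y).le
  refine h4.trans ?_
  have h5 := Submodule.norm_sq_eq_add_norm_sq_starProjection (Q x) (spanBefore e T c m)
  rw [Submodule.starProjection_orthogonal_val] at h5
  change ‖Q x‖ ^ 2 = ‖P (Q x)‖ ^ 2 + ‖Q x - P (Q x)‖ ^ 2 at h5
  rw [hPQ] at h5
  rw [hy, hPQ]
  linarith

lemma bessel {ν κ : Type*} [Fintype κ] (b : ν → OrthonormalBasis κ ℂ E)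
    (T : Finset (ν × κ)) (c : ν × κ → ℕ) (hc : ∀ α ∈ T, ∀ β ∈ T, c α = c β → α.1 = β.1)
    (x : E) :
    ∑ α ∈ T, ‖inner ℂ (uVec (fun α => b α.1 α.2) T c α) x‖ ^ 2 ≤ ‖x‖ ^ 2 := by
  set e : ν × κ → E := fun α => b α.1 α.2 with he
  set M := T.sup c + 1 with hM
  have hmaps : ∀ α ∈ T, c α ∈ Finset.range M := by
    intro α hα
    rw [Finset.mem_range, hM]
    exact Nat.lt_succ_of_le (Finset.le_sup hα)
  rw [← Finset.sum_fiberwise_of_maps_to hmaps]
  have h1 : ∑ m ∈ Finset.range M, ∑ α ∈ T.filter (fun α => c α = m), ‖inner ℂ (uVec e T c α) x‖ ^ 2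
      ≤ ∑ m ∈ Finset.range M, (‖pr e T c (m + 1) x‖ ^ 2 - ‖pr e T c m x‖ ^ 2) :=
    Finset.sum_le_sum fun m _ => cell_bessel b T c hc m x
  refine h1.trans ?_
  rw [Finset.sum_range_sub (fun m => ‖pr e T c m x‖ ^ 2)]
  have h2 : ‖pr e T c M x‖ ^ 2 ≤ ‖x‖ ^ 2 := by
    have : ‖pr e T c M x‖ ≤ ‖x‖ := Submodule.norm_starProjection_apply_le (spanBefore e T c M) x
    gcongr
  nlinarith [sq_nonneg ‖pr e T c 0 x‖]


lemma cell_proj {ν κ : Type*} [Fintype κ] [DecidableEq ν] [DecidableEq κ]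
    (b : ν → OrthonormalBasis κ ℂ E)
    (T : Finset (ν × κ)) (c : ν × κ → ℕ) (hc : ∀ α ∈ T, ∀ β ∈ T, c α = c β → α.1 = β.1)
    (m : ℕ) :
    ∑ α ∈ T.filter (fun α => c α = m), ‖pr (fun α => b α.1 α.2) T c m (b α.1 α.2)‖ ^ 2
      ≤ 2 * (∑ α ∈ T.filter (fun α => c α = m), ∑ β ∈ before T c m,
            ‖inner ℂ (b β.1 β.2) (b α.1 α.2)‖ ^ 2)
        + ∑ β ∈ before T c m, ∑ γ ∈ (before T c m).erase β,
            ‖inner ℂ (b β.1 β.2) (b γ.1 γ.2)‖ ^ 2 := by
  set e : ν × κ → E := fun α => b α.1 α.2 with he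
  set J := before T c m with hJ
  have h1 : ∀ α, ‖pr e T c m (e α)‖ ^ 2 ≤ 2 * (∑ β ∈ J, ‖inner ℂ (e β) (e α)‖ ^ 2)
      + ‖pr e T c m (e α) - frameOp e J (e α)‖ ^ 2 := fun α => norm_proj_le e J (e α)
  have h2 : ∑ α ∈ T.filter (fun α => c α = m), ‖pr e T c m (e α) - frameOp e J (e α)‖ ^ 2
      ≤ ∑ β ∈ J, ∑ γ ∈ J.erase β, ‖inner ℂ (e β) (e γ)‖ ^ 2 := by
    refine cell_sum_le _ ?_ (fun α => ‖pr e T c m (e α) - frameOp e J (e α)‖ ^ 2)
      (fun α => sq_nonneg _) _ ?_ ?_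
    · intro α hα β hβ
      rw [Finset.mem_filter] at hα hβ
      exact hc α hα.1 β hβ.1 (hα.2.trans hβ.2.symm)
    · exact Finset.sum_nonneg fun β _ => Finset.sum_nonneg fun γ _ => sq_nonneg _
    · intro j
      exact sum_norm_sub_frameOp (b j) e J (fun β _ => (b β.1).orthonormal.1 β.2)
  calc ∑ α ∈ T.filter (fun α => c α = m), ‖pr e T c m (e α)‖ ^ 2
      ≤ ∑ α ∈ T.filter (fun α => c α = m), (2 * (∑ β ∈ J, ‖inner ℂ (e β) (e α)‖ ^ 2)
          + ‖pr e T c m (e α) - frameOp e J (e α)‖ ^ 2) := Finset.sum_le_sum fun α _ => h1 α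
    _ = 2 * (∑ α ∈ T.filter (fun α => c α = m), ∑ β ∈ J, ‖inner ℂ (e β) (e α)‖ ^ 2)
          + ∑ α ∈ T.filter (fun α => c α = m), ‖pr e T c m (e α) - frameOp e J (e α)‖ ^ 2 := by
        rw [Finset.sum_add_distrib, Finset.mul_sum]
    _ ≤ _ := by gcongr

omit [FiniteDimensional ℂ E] [InnerProductSpace ℂ E] [NormedAddCommGroup E] in
lemma weight_sum (n : ℕ) (w : ℕ → ℝ) (hw0 : ∀ m, 0 ≤ w m) (hanti : Antitone w)
    (hhalf : ∀ m, w (m + n) ≤ w m / 2) (m₀ M : ℕ) :
    ∑ m ∈ Finset.Ico m₀ M, w m ≤ 2 * n * w m₀ := by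
  rcases le_or_gt m₀ M with h | h
  · have h1 : ∑ m ∈ Finset.Ico m₀ M, w m ≤ ∑ m ∈ Finset.Ico m₀ (M + n), w m := by
      refine Finset.sum_le_sum_of_subset_of_nonneg ?_ (fun i _ _ => hw0 i)
      exact Finset.Ico_subset_Ico_right (Nat.le_add_right _ _)
    have h2 : ∑ m ∈ Finset.Ico m₀ (M + n), w m
        = ∑ m ∈ Finset.Ico m₀ (m₀ + n), w m + ∑ m ∈ Finset.Ico (m₀ + n) (M + n), w m :=
      (Finset.sum_Ico_consecutive w (Nat.le_add_right _ _) (Nat.add_le_add_right h n)).symm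
    have h3 : ∑ m ∈ Finset.Ico m₀ (m₀ + n), w m ≤ n * w m₀ := by
      have : ∑ m ∈ Finset.Ico m₀ (m₀ + n), w m ≤ ∑ _m ∈ Finset.Ico m₀ (m₀ + n), w m₀ :=
        Finset.sum_le_sum fun m hm => hanti (Finset.mem_Ico.mp hm).1
      refine this.trans (le_of_eq ?_)
      simp
    have h4 : ∑ m ∈ Finset.Ico (m₀ + n) (M + n), w m ≤ (∑ m ∈ Finset.Ico m₀ M, w m) / 2 := by
      rw [← Finset.sum_Ico_add' w m₀ M n, Finset.sum_div]
      exact Finset.sum_le_sum fun m _ => hhalf m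
    linarith
  · rw [Finset.Ico_eq_empty (by omega), Finset.sum_empty]
    have := hw0 m₀
    positivity

lemma main_sum {ν κ : Type*} [Fintype κ] [DecidableEq ν] [DecidableEq κ]
    (b : ν → OrthonormalBasis κ ℂ E)
    (T : Finset (ν × κ)) (c : ν × κ → ℕ) (hc : ∀ α ∈ T, ∀ β ∈ T, c α = c β → α.1 = β.1)
    (n : ℕ) (w : ℕ → ℝ) (hw0 : ∀ m, 0 ≤ w m) (hanti : Antitone w)
    (hhalf : ∀ m, w (m + n) ≤ w m / 2) (lam : ν × κ → ℝ)
    (hlw : ∀ α ∈ T, lam α ≤ w (c α)) (hwl : ∀ α ∈ T, w (c α) ≤ 2 * lam α) :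
    ∑ α ∈ T, lam α * ‖pr (fun α => b α.1 α.2) T c (c α) (b α.1 α.2)‖ ^ 2
      ≤ (4 * n + 4) * ∑ α ∈ T, ∑ β ∈ T.erase α,
          min (lam α) (lam β) * ‖inner ℂ (b α.1 α.2) (b β.1 β.2)‖ ^ 2 := by
  set e : ν × κ → E := fun α => b α.1 α.2 with he
  change ∑ α ∈ T, lam α * ‖pr e T c (c α) (e α)‖ ^ 2 ≤ (4 * n + 4) * ∑ α ∈ T, ∑ β ∈ T.erase α,
          min (lam α) (lam β) * ‖inner ℂ (e α) (e β)‖ ^ 2
  set M := T.sup c + 1 with hM
  have hmaps : ∀ α ∈ T, c α ∈ Finset.range M := by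
    intro α hα
    rw [Finset.mem_range, hM]
    exact Nat.lt_succ_of_le (Finset.le_sup hα)
  -- first: replace `lam` by weights
  have h1 : ∑ α ∈ T, lam α * ‖pr e T c (c α) (e α)‖ ^ 2
      ≤ ∑ α ∈ T, w (c α) * ‖pr e T c (c α) (e α)‖ ^ 2 :=
    Finset.sum_le_sum fun α hα => mul_le_mul_of_nonneg_right (hlw α hα) (sq_nonneg _)
  have h2 : ∑ α ∈ T, w (c α) * ‖pr e T c (c α) (e α)‖ ^ 2
      = ∑ m ∈ Finset.range M, w m * ∑ α ∈ T.filter (fun α => c α = m), ‖pr e T c m (e α)‖ ^ 2 := by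
    rw [← Finset.sum_fiberwise_of_maps_to hmaps]
    refine Finset.sum_congr rfl fun m _ => ?_
    rw [Finset.mul_sum]
    refine Finset.sum_congr rfl fun α hα => ?_
    rw [(Finset.mem_filter.mp hα).2]
  have h3 : ∑ m ∈ Finset.range M, w m * ∑ α ∈ T.filter (fun α => c α = m), ‖pr e T c m (e α)‖ ^ 2
      ≤ ∑ m ∈ Finset.range M, w m * (2 * (∑ α ∈ T.filter (fun α => c α = m), ∑ β ∈ before T c m,
            ‖inner ℂ (e β) (e α)‖ ^ 2)
        + ∑ β ∈ before T c m, ∑ γ ∈ (before T c m).erase β, ‖inner ℂ (e β) (e γ)‖ ^ 2) :=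
    Finset.sum_le_sum fun m _ => mul_le_mul_of_nonneg_left (cell_proj b T c hc m) (hw0 m)
  have h4 : ∑ m ∈ Finset.range M, w m * (2 * (∑ α ∈ T.filter (fun α => c α = m), ∑ β ∈ before T c m,
            ‖inner ℂ (e β) (e α)‖ ^ 2)
        + ∑ β ∈ before T c m, ∑ γ ∈ (before T c m).erase β, ‖inner ℂ (e β) (e γ)‖ ^ 2)
      = (∑ α ∈ T, w (c α) * (2 * ∑ β ∈ before T c (c α), ‖inner ℂ (e β) (e α)‖ ^ 2))
        + ∑ β ∈ T, ∑ γ ∈ T.erase β,
          (∑ m ∈ Finset.range M, if (c β < m ∧ c γ < m) then w m else 0)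
            * ‖inner ℂ (e β) (e γ)‖ ^ 2 := by
    simp_rw [mul_add]
    rw [Finset.sum_add_distrib]
    congr 1
    · rw [← Finset.sum_fiberwise_of_maps_to hmaps]
      refine Finset.sum_congr rfl fun m _ => ?_
      rw [Finset.mul_sum, Finset.mul_sum]
      refine Finset.sum_congr rfl fun α hα => ?_
      rw [(Finset.mem_filter.mp hα).2]
    · have h5 : ∀ m, ∑ β ∈ before T c m, ∑ γ ∈ (before T c m).erase β, ‖inner ℂ (e β) (e γ)‖ ^ 2
          = ∑ β ∈ T, ∑ γ ∈ T.erase β,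
            if (c β < m ∧ c γ < m) then ‖inner ℂ (e β) (e γ)‖ ^ 2 else 0 := by
        intro m
        unfold before
        rw [Finset.sum_filter]
        refine Finset.sum_congr rfl fun β _ => ?_
        by_cases hβ : c β < m
        · rw [if_pos hβ]
          have : (T.filter (fun α => c α < m)).erase β = (T.erase β).filter (fun α => c α < m) := by
            ext γ
            simp only [Finset.mem_erase, Finset.mem_filter]
            tauto
          rw [this, Finset.sum_filter]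
          refine Finset.sum_congr rfl fun γ _ => ?_
          simp [hβ]
        · rw [if_neg hβ]
          symm
          refine Finset.sum_eq_zero fun γ _ => ?_
          rw [if_neg (fun h => hβ h.1)]
      simp_rw [h5, Finset.mul_sum]
      rw [Finset.sum_comm]
      refine Finset.sum_congr rfl fun β _ => ?_
      rw [Finset.sum_comm]
      refine Finset.sum_congr rfl fun γ _ => ?_
      rw [Finset.sum_mul]
      refine Finset.sum_congr rfl fun m _ => ?_
      split_ifs <;> simp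
  have hminnonneg : ∀ α ∈ T, ∀ β ∈ T, 0 ≤ min (lam α) (lam β) := by
    intro α hα β hβ
    refine le_min ?_ ?_
    · have := hwl α hα; have := hw0 (c α); linarith
    · have := hwl β hβ; have := hw0 (c β); linarith
  have h6 : ∑ α ∈ T, w (c α) * (2 * ∑ β ∈ before T c (c α), ‖inner ℂ (e β) (e α)‖ ^ 2)
      ≤ ∑ α ∈ T, ∑ β ∈ T.erase α, 4 * (min (lam α) (lam β) * ‖inner ℂ (e α) (e β)‖ ^ 2) := by
    refine Finset.sum_le_sum fun α hα => ?_
    have h7 : before T c (c α) ⊆ T.erase α := by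
      intro β hβ
      rw [before, Finset.mem_filter] at hβ
      rw [Finset.mem_erase]
      refine ⟨?_, hβ.1⟩
      rintro rfl
      exact lt_irrefl _ hβ.2
    calc w (c α) * (2 * ∑ β ∈ before T c (c α), ‖inner ℂ (e β) (e α)‖ ^ 2)
        = ∑ β ∈ before T c (c α), w (c α) * (2 * ‖inner ℂ (e β) (e α)‖ ^ 2) := by
          rw [Finset.mul_sum, Finset.mul_sum]
      _ ≤ ∑ β ∈ before T c (c α), 4 * (min (lam α) (lam β) * ‖inner ℂ (e α) (e β)‖ ^ 2) := by
          refine Finset.sum_le_sum fun β hβ => ?_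
          rw [before, Finset.mem_filter] at hβ
          have h8 : w (c α) ≤ 2 * min (lam α) (lam β) := by
            have h9 := hwl α hα
            have h10 := hwl β hβ.1
            have h11 := hanti hβ.2.le
            have h12 : w (c α) / 2 ≤ min (lam α) (lam β) := le_min (by linarith) (by linarith)
            linarith
          rw [norm_inner_symm' (e β) (e α)]
          have h13 : 0 ≤ ‖inner ℂ (e α) (e β)‖ ^ 2 := sq_nonneg _
          have h14 := mul_le_mul_of_nonneg_right h8 h13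
          linarith
      _ ≤ ∑ β ∈ T.erase α, 4 * (min (lam α) (lam β) * ‖inner ℂ (e α) (e β)‖ ^ 2) := by
          refine Finset.sum_le_sum_of_subset_of_nonneg h7 fun β hβ _ => ?_
          have := hminnonneg α hα β (Finset.mem_of_mem_erase hβ)
          positivity
  have h15 : ∑ β ∈ T, ∑ γ ∈ T.erase β,
          (∑ m ∈ Finset.range M, if (c β < m ∧ c γ < m) then w m else 0)
            * ‖inner ℂ (e β) (e γ)‖ ^ 2
      ≤ ∑ β ∈ T, ∑ γ ∈ T.erase β, (4 * n) * (min (lam β) (lam γ) * ‖inner ℂ (e β) (e γ)‖ ^ 2) := by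
    refine Finset.sum_le_sum fun β hβ => Finset.sum_le_sum fun γ hγ' => ?_
    have hγ := Finset.mem_of_mem_erase hγ'
    rw [← mul_assoc]
    refine mul_le_mul_of_nonneg_right ?_ (sq_nonneg _)
    rw [← Finset.sum_filter]
    have h16 : (Finset.range M).filter (fun m => c β < m ∧ c γ < m)
        ⊆ Finset.Ico (max (c β) (c γ)) M := by
      intro m hm
      rw [Finset.mem_filter, Finset.mem_range] at hm
      rw [Finset.mem_Ico]
      exact ⟨max_le hm.2.1.le hm.2.2.le, hm.1⟩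
    have h17 : ∑ m ∈ (Finset.range M).filter (fun m => c β < m ∧ c γ < m), w m
        ≤ ∑ m ∈ Finset.Ico (max (c β) (c γ)) M, w m :=
      Finset.sum_le_sum_of_subset_of_nonneg h16 fun m _ _ => hw0 m
    refine h17.trans ((weight_sum n w hw0 hanti hhalf _ _).trans ?_)
    have h18 : w (max (c β) (c γ)) ≤ 2 * min (lam β) (lam γ) := by
      have h9 := hwl β hβ
      have h10 := hwl γ hγ
      have h11 := hanti (le_max_left (c β) (c γ))
      have h12 := hanti (le_max_right (c β) (c γ))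
      have h13 : w (max (c β) (c γ)) / 2 ≤ min (lam β) (lam γ) := le_min (by linarith) (by linarith)
      linarith
    have h19 : (0 : ℝ) ≤ 2 * n := by positivity
    have := mul_le_mul_of_nonneg_left h18 h19
    linarith
  calc ∑ α ∈ T, lam α * ‖pr e T c (c α) (e α)‖ ^ 2
      ≤ (∑ α ∈ T, ∑ β ∈ T.erase α, 4 * (min (lam α) (lam β) * ‖inner ℂ (e α) (e β)‖ ^ 2))
        + ∑ β ∈ T, ∑ γ ∈ T.erase β, (4 * n) * (min (lam β) (lam γ) * ‖inner ℂ (e β) (e γ)‖ ^ 2) := by
        linarith [h1, h2, h3, h4, h6, h15]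
    _ = _ := by
        simp_rw [← Finset.mul_sum]
        ring


lemma one_sub_inner_uVec {ι : Type*} (e : ι → E) (T : Finset ι) (c : ι → ℕ) (α : ι)
    (hα : ‖e α‖ = 1) :
    1 - (inner ℂ (uVec e T c α) (e α)).re = ‖pr e T c (c α) (e α)‖ ^ 2 := by
  unfold uVec
  rw [inner_sub_left, inner_self_eq_norm_sq_to_K, hα]
  have h1 : inner ℂ (pr e T c (c α) (e α)) (e α)
      = inner ℂ (pr e T c (c α) (e α)) (pr e T c (c α) (e α)) := by
    unfold pr
    conv_rhs => rw [Submodule.inner_starProjection_left_eq_right]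
    conv_lhs => rw [Submodule.inner_starProjection_left_eq_right]
    congr 1
    symm
    exact Submodule.starProjection_eq_self_iff.mpr (Submodule.starProjection_apply_mem _ _)
  rw [h1, inner_self_eq_norm_sq_to_K]
  simp only [Complex.coe_algebraMap, Complex.sub_re]
  norm_cast
  simp

theorem core {n : ℕ} {κ : Type*} [Fintype κ] [DecidableEq κ]
    (b : Fin n → OrthonormalBasis κ ℂ E) (lam : Fin n × κ → ℝ) (hlam : ∀ α, 0 ≤ lam α) :
    ∃ u : Fin n × κ → E, (∀ x, ∑ α, ‖inner ℂ (u α) x‖ ^ 2 ≤ ‖x‖ ^ 2) ∧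
      ∑ α, lam α * (1 - (inner ℂ (u α) (b α.1 α.2)).re)
        ≤ (4 * n + 4) * ∑ j, ∑ k ∈ Finset.univ.erase j, ∑ s, ∑ t,
            min (lam (j, s)) (lam (k, t)) * ‖inner ℂ (b j s) (b k t)‖ ^ 2 := by
  classical
  rcases Nat.eq_zero_or_pos n with hn | hn
  · subst hn
    exact ⟨fun _ => 0, by intro x; simp, by simp⟩
  set e : Fin n × κ → E := fun α => b α.1 α.2 with he
  set T : Finset (Fin n × κ) := Finset.univ.filter (fun α => 0 < lam α) with hT
  set B : ℝ := ∑ α, lam α + 1 with hB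
  have hB0 : 0 < B := by
    have : 0 ≤ ∑ α, lam α := Finset.sum_nonneg fun α _ => hlam α
    linarith
  have hlamB : ∀ α, lam α ≤ B := by
    intro α
    have := Finset.single_le_sum (fun α _ => hlam α) (Finset.mem_univ α)
    linarith
  have hex : ∀ α, ∃ k : ℕ, 0 < lam α → (1 / 2 : ℝ) ^ (k + 1) < lam α / B ∧ lam α / B ≤ (1 / 2 : ℝ) ^ k := by
    intro α
    by_cases h : 0 < lam α
    · obtain ⟨k, hk1, hk2⟩ := exists_nat_pow_near_of_lt_one (div_pos h hB0)
        ((div_le_one hB0).mpr (hlamB α)) (by norm_num : (0 : ℝ) < 1 / 2) (by norm_num)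
      exact ⟨k, fun _ => ⟨hk1, hk2⟩⟩
    · exact ⟨0, fun h' => absurd h' h⟩
  choose kap hkap using hex
  set c : Fin n × κ → ℕ := fun α => n * kap α + α.1 with hcdef
  set w : ℕ → ℝ := fun m => B * (1 / 2 : ℝ) ^ (m / n) with hw
  have hcdiv : ∀ α, c α / n = kap α := by
    intro α
    rw [hcdef]
    simp only
    rw [Nat.mul_add_div hn, Nat.div_eq_of_lt α.1.2, add_zero]
  have hc : ∀ α ∈ T, ∀ β ∈ T, c α = c β → α.1 = β.1 := by
    intro α _ β _ h
    have h1 : c α % n = α.1 := by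
      rw [hcdef]; simp only
      rw [Nat.mul_add_mod, Nat.mod_eq_of_lt α.1.2]
    have h2 : c β % n = β.1 := by
      rw [hcdef]; simp only
      rw [Nat.mul_add_mod, Nat.mod_eq_of_lt β.1.2]
    apply Fin.ext
    rw [← h1, ← h2, h]
  have hw0 : ∀ m, 0 ≤ w m := fun m => by rw [hw]; positivity
  have hanti : Antitone w := by
    intro m m' hmm
    rw [hw]
    simp only
    refine mul_le_mul_of_nonneg_left ?_ hB0.le
    exact pow_le_pow_of_le_one (by norm_num) (by norm_num) (Nat.div_le_div_right hmm)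
  have hhalf : ∀ m, w (m + n) ≤ w m / 2 := by
    intro m
    rw [hw]
    simp only
    rw [Nat.add_div_right m hn, pow_succ]
    linarith
  have hTmem : ∀ α, α ∈ T ↔ 0 < lam α := by intro α; rw [hT]; simp
  have hlw : ∀ α ∈ T, lam α ≤ w (c α) := by
    intro α hα
    have h := (hkap α ((hTmem α).mp hα)).2
    rw [div_le_iff₀ hB0] at h
    rw [hw]; simp only
    rw [hcdiv]; linarith
  have hwl : ∀ α ∈ T, w (c α) ≤ 2 * lam α := by
    intro α hα
    have h := (hkap α ((hTmem α).mp hα)).1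
    rw [lt_div_iff₀ hB0, pow_succ] at h
    rw [hw]; simp only
    rw [hcdiv]; linarith
  refine ⟨fun α => if α ∈ T then uVec e T c α else 0, ?_, ?_⟩
  · intro x
    have h1 := bessel b T c hc x
    have h2 : ∑ α, ‖inner ℂ (if α ∈ T then uVec e T c α else 0) x‖ ^ 2
        = ∑ α ∈ T, ‖inner ℂ (uVec e T c α) x‖ ^ 2 := by
      rw [← Finset.sum_filter_add_sum_filter_not Finset.univ (fun α => α ∈ T)]
      have h3 : ∑ α ∈ Finset.univ.filter (fun α => ¬ α ∈ T),
          ‖inner ℂ (if α ∈ T then uVec e T c α else 0) x‖ ^ 2 = 0 := by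
        refine Finset.sum_eq_zero fun α hα => ?_
        rw [if_neg (Finset.mem_filter.mp hα).2]
        simp
      rw [h3, add_zero, Finset.filter_univ_mem]
      refine Finset.sum_congr rfl fun α hα => ?_
      rw [if_pos hα]
    rw [h2]
    exact h1
  · have h1 := main_sum b T c hc n w hw0 hanti hhalf lam hlw hwl
    have h2 : ∑ α, lam α * (1 - (inner ℂ (if α ∈ T then uVec e T c α else 0) (b α.1 α.2)).re)
        = ∑ α ∈ T, lam α * ‖pr e T c (c α) (b α.1 α.2)‖ ^ 2 := by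
      rw [← Finset.sum_filter_add_sum_filter_not Finset.univ (fun α => α ∈ T)]
      have h3 : ∑ α ∈ Finset.univ.filter (fun α => ¬ α ∈ T),
          lam α * (1 - (inner ℂ (if α ∈ T then uVec e T c α else 0) (b α.1 α.2)).re) = 0 := by
        refine Finset.sum_eq_zero fun α hα => ?_
        have h4 := (Finset.mem_filter.mp hα).2
        rw [hTmem, not_lt] at h4
        rw [le_antisymm h4 (hlam α), zero_mul]
      rw [h3, add_zero, Finset.filter_univ_mem]
      refine Finset.sum_congr rfl fun α hα => ?_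
      rw [if_pos hα]
      congr 1
      exact one_sub_inner_uVec e T c α ((b α.1).orthonormal.1 α.2)
    rw [h2]
    refine h1.trans ?_
    refine mul_le_mul_of_nonneg_left ?_ (by positivity)
    have hF : ∀ α β : Fin n × κ, 0 ≤ min (lam α) (lam β) * ‖inner ℂ (b α.1 α.2) (b β.1 β.2)‖ ^ 2 :=
      fun α β => mul_nonneg (le_min (hlam α) (hlam β)) (sq_nonneg _)
    have h5 : ∀ α ∈ T, ∑ β ∈ T.erase α,
        min (lam α) (lam β) * ‖inner ℂ (b α.1 α.2) (b β.1 β.2)‖ ^ 2
        ≤ ∑ k ∈ Finset.univ.erase α.1, ∑ t,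
          min (lam α) (lam (k, t)) * ‖inner ℂ (b α.1 α.2) (b k t)‖ ^ 2 := by
      intro α _
      have h6 : ∑ k ∈ Finset.univ.erase α.1, ∑ t,
          min (lam α) (lam (k, t)) * ‖inner ℂ (b α.1 α.2) (b k t)‖ ^ 2
          = ∑ β ∈ (Finset.univ.erase α.1) ×ˢ (Finset.univ : Finset κ),
            min (lam α) (lam β) * ‖inner ℂ (b α.1 α.2) (b β.1 β.2)‖ ^ 2 := by
        rw [Finset.sum_product]
      rw [h6]
      have h7 : ∑ β ∈ T.erase α,
          min (lam α) (lam β) * ‖inner ℂ (b α.1 α.2) (b β.1 β.2)‖ ^ 2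
          = ∑ β ∈ (T.erase α).filter (fun β => β.1 ≠ α.1),
          min (lam α) (lam β) * ‖inner ℂ (b α.1 α.2) (b β.1 β.2)‖ ^ 2 := by
        rw [Finset.sum_filter_of_ne]
        intro β hβ hne hβα
        apply hne
        have hne2 : α.2 ≠ β.2 := by
          intro h
          exact (Finset.mem_erase.mp hβ).1 (Prod.ext hβα h.symm)
        rw [hβα]
        rw [(b α.1).orthonormal.2 hne2]
        simp
      rw [h7]
      refine Finset.sum_le_sum_of_subset_of_nonneg ?_ (fun β _ _ => hF α β)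
      intro β hβ
      rw [Finset.mem_filter] at hβ
      simp only [Finset.mem_product, Finset.mem_erase, Finset.mem_univ, and_true]
      exact hβ.2
    calc ∑ α ∈ T, ∑ β ∈ T.erase α, min (lam α) (lam β) * ‖inner ℂ (b α.1 α.2) (b β.1 β.2)‖ ^ 2
        ≤ ∑ α ∈ T, ∑ k ∈ Finset.univ.erase α.1, ∑ t,
          min (lam α) (lam (k, t)) * ‖inner ℂ (b α.1 α.2) (b k t)‖ ^ 2 := Finset.sum_le_sum h5
      _ ≤ ∑ α, ∑ k ∈ Finset.univ.erase α.1, ∑ t,
          min (lam α) (lam (k, t)) * ‖inner ℂ (b α.1 α.2) (b k t)‖ ^ 2 := by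
          refine Finset.sum_le_sum_of_subset_of_nonneg (Finset.subset_univ _) ?_
          intro α _ _
          exact Finset.sum_nonneg fun k _ => Finset.sum_nonneg fun t _ => hF α (k, t)
      _ = _ := by
          rw [Fintype.sum_prod_type]
          refine Finset.sum_congr rfl fun j _ => ?_
          rw [Finset.sum_comm]

end Core

section Mat

open scoped MatrixOrder ComplexOrder
open Matrix

variable {d : ℕ}

/-- the action of a matrix on Euclidean space -/
noncomputable abbrev act (A : Matrix (Fin d) (Fin d) ℂ) :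
    EuclideanSpace ℂ (Fin d) →ₗ[ℂ] EuclideanSpace ℂ (Fin d) := Matrix.toEuclideanLin A

lemma act_mul (A B : Matrix (Fin d) (Fin d) ℂ) (x : EuclideanSpace ℂ (Fin d)) :
    act (A * B) x = act A (act B x) := by
  unfold act
  have := Matrix.toLpLin_mul (R := ℂ) 2 2 2 A B
  exact congrArg (fun f => f x) this

lemma act_symm {A : Matrix (Fin d) (Fin d) ℂ} (hA : A.IsHermitian)
    (x y : EuclideanSpace ℂ (Fin d)) : inner ℂ (act A x) y = inner ℂ x (act A y) :=
  (Matrix.isSymmetric_toEuclideanLin_iff.mpr hA) x y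

lemma act_eigen {A : Matrix (Fin d) (Fin d) ℂ} (hA : A.IsHermitian) (i : Fin d) :
    act A (hA.eigenvectorBasis i) = (hA.eigenvalues i : ℂ) • hA.eigenvectorBasis i := by
  have h := hA.mulVec_eigenvectorBasis i
  unfold act
  rw [Matrix.toLpLin_apply, h]
  ext k
  simp

lemma trace_eq_sum (A : Matrix (Fin d) (Fin d) ℂ)
    (b : OrthonormalBasis (Fin d) ℂ (EuclideanSpace ℂ (Fin d))) :
    A.trace = ∑ i, inner ℂ (b i) (act A (b i)) := by
  rw [← LinearMap.trace_eq_sum_inner]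
  unfold act
  rw [Matrix.toEuclideanLin_eq_toLin_orthonormal, Matrix.trace_toLin_eq]

lemma inner_act {A : Matrix (Fin d) (Fin d) ℂ} (hA : A.IsHermitian)
    (x : EuclideanSpace ℂ (Fin d)) (i : Fin d) :
    inner ℂ (hA.eigenvectorBasis i) (act A x)
      = (hA.eigenvalues i : ℂ) * inner ℂ (hA.eigenvectorBasis i) x := by
  rw [← act_symm hA, act_eigen hA, inner_smul_left]
  simp

lemma quad_form {A : Matrix (Fin d) (Fin d) ℂ} (hA : A.IsHermitian)
    (x : EuclideanSpace ℂ (Fin d)) :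
    inner ℂ x (act A x)
      = ((∑ i, hA.eigenvalues i * ‖inner ℂ (hA.eigenvectorBasis i) x‖ ^ 2 : ℝ) : ℂ) := by
  rw [← hA.eigenvectorBasis.sum_inner_mul_inner x (act A x)]
  push_cast
  refine Finset.sum_congr rfl fun i _ => ?_
  rw [inner_act hA, ← inner_conj_symm x (hA.eigenvectorBasis i)]
  have := RCLike.conj_mul (inner ℂ (hA.eigenvectorBasis i) x)
  have h2 : ((starRingEnd ℂ) (inner ℂ (hA.eigenvectorBasis i) x))
      * ((hA.eigenvalues i : ℂ) * inner ℂ (hA.eigenvectorBasis i) x)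
      = (hA.eigenvalues i : ℂ) * ((starRingEnd ℂ) (inner ℂ (hA.eigenvectorBasis i) x)
        * inner ℂ (hA.eigenvectorBasis i) x) := by ring
  rw [h2, this]
  simp

lemma norm_act {A : Matrix (Fin d) (Fin d) ℂ} (hA : A.IsHermitian)
    (x : EuclideanSpace ℂ (Fin d)) :
    ‖act A x‖ ^ 2
      = ∑ i, hA.eigenvalues i ^ 2 * ‖inner ℂ (hA.eigenvectorBasis i) x‖ ^ 2 := by
  rw [← hA.eigenvectorBasis.sum_sq_norm_inner_right (act A x)]
  refine Finset.sum_congr rfl fun i _ => ?_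
  rw [inner_act hA, norm_mul, mul_pow]
  simp

/-- the squared norm of `A x` as a quadratic form of `A²`. -/
lemma norm_act_sq {A : Matrix (Fin d) (Fin d) ℂ} (hA : A.IsHermitian)
    (x : EuclideanSpace ℂ (Fin d)) :
    ((‖act A x‖ ^ 2 : ℝ) : ℂ) = inner ℂ x (act (A * A) x) := by
  rw [act_mul, ← act_symm hA, inner_self_eq_norm_sq_to_K]
  simp

/-- Step 1: Cauchy-Schwarz. -/
lemma trace_sqrt_ge {n : ℕ} (A : Fin n → Matrix (Fin d) (Fin d) ℂ)
    (hA : ∀ j, (A j).PosSemidef) (S : Matrix (Fin d) (Fin d) ℂ) (hS : S.PosSemidef)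
    (hSS : S * S = ∑ j, A j ^ 2)
    (u : Fin n × Fin d → EuclideanSpace ℂ (Fin d))
    (hu : ∀ x, ∑ α, ‖inner ℂ (u α) x‖ ^ 2 ≤ ‖x‖ ^ 2) :
    ∑ α : Fin n × Fin d, (hA α.1).isHermitian.eigenvalues α.2 *
        (inner ℂ (u α) ((hA α.1).isHermitian.eigenvectorBasis α.2)).re ≤ S.trace.re := by
  set f := hS.isHermitian.eigenvectorBasis with hf
  set s := hS.isHermitian.eigenvalues with hs
  have hs0 : ∀ k, 0 ≤ s k := fun k => hS.eigenvalues_nonneg k
  set lam : Fin n × Fin d → ℝ := fun α => (hA α.1).isHermitian.eigenvalues α.2 with hlamdef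
  set e : Fin n × Fin d → EuclideanSpace ℂ (Fin d) :=
    fun α => (hA α.1).isHermitian.eigenvectorBasis α.2 with hedef
  have hlam : ∀ α, 0 ≤ lam α := fun α => (hA α.1).eigenvalues_nonneg α.2
  change ∑ α, lam α * (inner ℂ (u α) (e α)).re ≤ S.trace.re
  -- the eigenvalues of `S`
  have hsk : ∀ k, s k ^ 2 = ∑ α, (lam α * ‖inner ℂ (f k) (e α)‖) ^ 2 := by
    intro k
    have h1 : ((‖act S (f k)‖ ^ 2 : ℝ) : ℂ) = ((∑ j, ‖act (A j) (f k)‖ ^ 2 : ℝ) : ℂ) := by
      rw [norm_act_sq hS.isHermitian, hSS]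
      push_cast
      unfold act
      rw [map_sum, LinearMap.sum_apply, inner_sum]
      refine Finset.sum_congr rfl fun j _ => ?_
      have := norm_act_sq (hA j).isHermitian (f k)
      rw [pow_two (A j)]
      unfold act at this
      rw [← this]
      push_cast
      rfl
    have h2 : ‖act S (f k)‖ ^ 2 = ∑ j, ‖act (A j) (f k)‖ ^ 2 := by exact_mod_cast h1
    have h3 : ‖act S (f k)‖ ^ 2 = s k ^ 2 := by
      rw [hf, act_eigen, norm_smul, mul_pow]
      rw [hS.isHermitian.eigenvectorBasis.orthonormal.1 k]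
      simp [hs]
    rw [← h3, h2, Fintype.sum_prod_type]
    refine Finset.sum_congr rfl fun j _ => ?_
    rw [norm_act (hA j).isHermitian]
    refine Finset.sum_congr rfl fun i _ => ?_
    rw [mul_pow, norm_inner_symm']
  have htr : S.trace.re = ∑ k, s k := by
    rw [hS.isHermitian.trace_eq_sum_eigenvalues]
    simp [hs]
  rw [htr]
  have h1 : ∀ α, (inner ℂ (u α) (e α)).re ≤ ∑ k, ‖inner ℂ (u α) (f k)‖ * ‖inner ℂ (f k) (e α)‖ := by
    intro α
    rw [← f.sum_inner_mul_inner (u α) (e α)]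
    rw [Complex.re_sum]
    refine Finset.sum_le_sum fun k _ => ?_
    rw [← norm_mul]
    exact Complex.re_le_norm _
  calc ∑ α, lam α * (inner ℂ (u α) (e α)).re
      ≤ ∑ α, lam α * ∑ k, ‖inner ℂ (u α) (f k)‖ * ‖inner ℂ (f k) (e α)‖ :=
        Finset.sum_le_sum fun α _ => mul_le_mul_of_nonneg_left (h1 α) (hlam α)
    _ = ∑ k, ∑ α, ‖inner ℂ (u α) (f k)‖ * (lam α * ‖inner ℂ (f k) (e α)‖) := by
        rw [Finset.sum_comm]
        refine Finset.sum_congr rfl fun α _ => ?_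
        rw [Finset.mul_sum]
        refine Finset.sum_congr rfl fun k _ => ?_
        ring
    _ ≤ ∑ k, √(∑ α, ‖inner ℂ (u α) (f k)‖ ^ 2) * √(∑ α, (lam α * ‖inner ℂ (f k) (e α)‖) ^ 2) :=
        Finset.sum_le_sum fun k _ => Real.sum_mul_le_sqrt_mul_sqrt _ _ _
    _ ≤ ∑ k, 1 * s k := by
        refine Finset.sum_le_sum fun k _ => ?_
        rw [← hsk k, Real.sqrt_sq (hs0 k)]
        refine mul_le_mul_of_nonneg_right ?_ (hs0 k)
        rw [Real.sqrt_le_one]
        refine (hu (f k)).trans ?_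
        rw [f.orthonormal.1 k]; norm_num
    _ = ∑ k, s k := by simp


/-- upper bound of the trace of a positive square root of `X²` by the absolute eigenvalue sum. -/
lemma trace_abs_le {X T : Matrix (Fin d) (Fin d) ℂ} (hX : X.IsHermitian) (hT : T.PosSemidef)
    (hTX : T * T = X * X) : T.trace.re ≤ ∑ k, |hX.eigenvalues k| := by
  rw [trace_eq_sum T hX.eigenvectorBasis, Complex.re_sum]
  refine Finset.sum_le_sum fun k _ => ?_
  set g := hX.eigenvectorBasis k with hg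
  have hg1 : ‖g‖ = 1 := hX.eigenvectorBasis.orthonormal.1 k
  have h1 : ‖act T g‖ ^ 2 = ‖act X g‖ ^ 2 := by
    have h2 : ((‖act T g‖ ^ 2 : ℝ) : ℂ) = ((‖act X g‖ ^ 2 : ℝ) : ℂ) := by
      rw [norm_act_sq hT.isHermitian, norm_act_sq hX, hTX]
    exact_mod_cast h2
  have h3 : ‖act X g‖ = |hX.eigenvalues k| := by
    rw [hg, act_eigen, norm_smul, ← hg, hg1]
    simp
  have h4 : ‖act T g‖ = |hX.eigenvalues k| := by
    rw [← h3]
    exact (pow_left_inj₀ (norm_nonneg _) (norm_nonneg _) two_ne_zero).mp h1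
  calc (inner ℂ g (act T g)).re ≤ ‖inner ℂ g (act T g)‖ := Complex.re_le_norm _
    _ ≤ ‖g‖ * ‖act T g‖ := norm_inner_le_norm _ _
    _ = |hX.eigenvalues k| := by rw [hg1, h4, one_mul]

lemma parallelogram_le (x y : ℂ) : ‖x + y‖ ^ 2 ≤ 2 * (‖x‖ ^ 2 + ‖y‖ ^ 2) := by
  have h := norm_add_le x y
  have h2 : ‖x + y‖ ^ 2 ≤ (‖x‖ + ‖y‖) ^ 2 := by gcongr
  nlinarith [sq_nonneg (‖x‖ - ‖y‖)]

/-- Parseval for a sub-sum of the expansion. -/
lemma norm_subsum_sq {κ : Type*} [Fintype κ] [DecidableEq κ]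
    {E : Type*} [NormedAddCommGroup E] [InnerProductSpace ℂ E]
    (g : OrthonormalBasis κ ℂ E) (N : Finset κ) (x : E) :
    ‖∑ k ∈ N, inner ℂ (g k) x • g k‖ ^ 2 = ∑ k ∈ N, ‖inner ℂ (g k) x‖ ^ 2 := by
  rw [← g.sum_sq_norm_inner_right (∑ k ∈ N, inner ℂ (g k) x • g k)]
  have h : ∀ k, inner ℂ (g k) (∑ k' ∈ N, inner ℂ (g k') x • g k')
      = if k ∈ N then inner ℂ (g k) x else 0 := by
    intro k
    rw [inner_sum]
    simp_rw [inner_smul_right]
    have : ∀ k' ∈ N, inner ℂ (g k') x * inner ℂ (g k) (g k')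
        = if k = k' then inner ℂ (g k) x else 0 := by
      intro k' _
      by_cases hk : k = k'
      · subst hk
        rw [if_pos rfl, inner_self_eq_norm_sq_to_K, g.orthonormal.1 k]; simp
      · rw [if_neg hk, g.orthonormal.2 hk, mul_zero]
    rw [Finset.sum_congr rfl this, Finset.sum_ite_eq]
  simp_rw [h]
  rw [← Finset.sum_filter_add_sum_filter_not Finset.univ (fun k => k ∈ N), Finset.filter_univ_mem]
  have h2 : ∑ k ∈ Finset.univ.filter (fun k => ¬ k ∈ N),
      ‖if k ∈ N then inner ℂ (g k) x else 0‖ ^ 2 = 0 := by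
    refine Finset.sum_eq_zero fun k hk => ?_
    rw [if_neg (Finset.mem_filter.mp hk).2]; simp
  rw [h2, add_zero]
  refine Finset.sum_congr rfl fun k hk => by rw [if_pos hk]

/-- Step 5: lower bound for `Tr (A + B) - ‖A - B‖₁`. -/
lemma pair_bound {A B T : Matrix (Fin d) (Fin d) ℂ} (hA : A.PosSemidef) (hB : B.PosSemidef)
    (hT : T.PosSemidef) (hTT : T * T = (A - B) * (A - B)) :
    ∑ s, ∑ t, min (hA.isHermitian.eigenvalues s) (hB.isHermitian.eigenvalues t)
        * ‖inner ℂ (hA.isHermitian.eigenvectorBasis s) (hB.isHermitian.eigenvectorBasis t)‖ ^ 2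
      ≤ (A + B).trace.re - T.trace.re := by
  classical
  have hX : (A - B).IsHermitian := hA.isHermitian.sub hB.isHermitian
  set g := hX.eigenvectorBasis with hg
  set xi := hX.eigenvalues with hxi
  set a := hA.isHermitian.eigenvalues with ha
  set b := hB.isHermitian.eigenvalues with hb
  set e := hA.isHermitian.eigenvectorBasis with he
  set f := hB.isHermitian.eigenvectorBasis with hf
  have ha0 : ∀ s, 0 ≤ a s := fun s => hA.eigenvalues_nonneg s
  have hb0 : ∀ t, 0 ≤ b t := fun t => hB.eigenvalues_nonneg t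
  have h1 : T.trace.re ≤ ∑ k, |xi k| := trace_abs_le hX hT hTT
  set qa : Fin d → ℝ := fun k => ∑ s, a s * ‖inner ℂ (e s) (g k)‖ ^ 2 with hqa
  set qb : Fin d → ℝ := fun k => ∑ t, b t * ‖inner ℂ (f t) (g k)‖ ^ 2 with hqb
  have hqaA : ∀ k, inner ℂ (g k) (act A (g k)) = (qa k : ℂ) := fun k => quad_form hA.isHermitian _
  have hqbB : ∀ k, inner ℂ (g k) (act B (g k)) = (qb k : ℂ) := fun k => quad_form hB.isHermitian _
  have hxik : ∀ k, xi k = qa k - qb k := by
    intro k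
    have h2 : inner ℂ (g k) (act (A - B) (g k)) = (xi k : ℂ) := by
      rw [hg, act_eigen, inner_smul_right, inner_self_eq_norm_sq_to_K,
        hX.eigenvectorBasis.orthonormal.1 k]
      simp [hxi]
    have h3 : inner ℂ (g k) (act (A - B) (g k))
        = inner ℂ (g k) (act A (g k)) - inner ℂ (g k) (act B (g k)) := by
      unfold act
      rw [map_sub, LinearMap.sub_apply, inner_sub_right]
    rw [h2, hqaA, hqbB] at h3
    exact_mod_cast h3
  have htr : (A + B).trace.re = ∑ k, (qa k + qb k) := by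
    rw [trace_eq_sum (A + B) g, Complex.re_sum]
    refine Finset.sum_congr rfl fun k _ => ?_
    unfold act
    rw [map_add, LinearMap.add_apply, inner_add_right]
    have h4 := hqaA k
    have h5 := hqbB k
    unfold act at h4 h5
    rw [h4, h5]
    simp
  set N : Finset (Fin d) := Finset.univ.filter (fun k => xi k < 0) with hN
  have hqa0 : ∀ k, 0 ≤ qa k := fun k => Finset.sum_nonneg fun s _ => mul_nonneg (ha0 s) (sq_nonneg _)
  have hqb0 : ∀ k, 0 ≤ qb k := fun k => Finset.sum_nonneg fun t _ => mul_nonneg (hb0 t) (sq_nonneg _)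
  -- `Tr (A+B) - Σ|ξ| = 2 Σ_{k ∈ N} qa k + 2 Σ_{k ∉ N} qb k`
  have h6 : ∑ k, (qa k + qb k) - ∑ k, |xi k| = 2 * ∑ k ∈ N, qa k + 2 * ∑ k ∈ Nᶜ, qb k := by
    rw [← Finset.sum_sub_distrib, ← Finset.sum_add_sum_compl N, Finset.mul_sum, Finset.mul_sum]
    congr 1
    · refine Finset.sum_congr rfl fun k hk => ?_
      have : xi k < 0 := (Finset.mem_filter.mp hk).2
      rw [abs_of_neg this, hxik]; ring
    · refine Finset.sum_congr rfl fun k hk => ?_
      have : ¬ xi k < 0 := by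
        intro h
        exact (Finset.mem_compl.mp hk) (Finset.mem_filter.mpr ⟨Finset.mem_univ _, h⟩)
      rw [abs_of_nonneg (not_lt.mp this), hxik]; ring
  -- the vectors `e⁻`, `f⁺`
  set em : Fin d → EuclideanSpace ℂ (Fin d) := fun s => ∑ k ∈ N, inner ℂ (g k) (e s) • g k with hem
  set fp : Fin d → EuclideanSpace ℂ (Fin d) := fun t => ∑ k ∈ Nᶜ, inner ℂ (g k) (f t) • g k with hfp
  have h7 : ∑ k ∈ N, qa k = ∑ s, a s * ∑ t, ‖inner ℂ (f t) (em s)‖ ^ 2 := by
    rw [hqa, Finset.sum_comm]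
    refine Finset.sum_congr rfl fun s _ => ?_
    rw [f.sum_sq_norm_inner_right, hem, norm_subsum_sq, Finset.mul_sum]
    refine Finset.sum_congr rfl fun k _ => ?_
    rw [norm_inner_symm']
  have h8 : ∑ k ∈ Nᶜ, qb k = ∑ t, b t * ∑ s, ‖inner ℂ (fp t) (e s)‖ ^ 2 := by
    rw [hqb, Finset.sum_comm]
    refine Finset.sum_congr rfl fun t _ => ?_
    rw [e.sum_sq_norm_inner_left, hfp, norm_subsum_sq, Finset.mul_sum]
    refine Finset.sum_congr rfl fun k _ => ?_
    rw [norm_inner_symm']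
  have h9 : ∀ s t, inner ℂ (f t) (e s) = inner ℂ (f t) (em s) + inner ℂ (fp t) (e s) := by
    intro s t
    have h10 : inner ℂ (f t) (em s) = ∑ k ∈ N, inner ℂ (f t) (g k) * inner ℂ (g k) (e s) := by
      rw [hem]
      simp only
      rw [inner_sum]
      refine Finset.sum_congr rfl fun k _ => ?_
      rw [inner_smul_right, mul_comm]
    have h11 : inner ℂ (fp t) (e s) = ∑ k ∈ Nᶜ, inner ℂ (f t) (g k) * inner ℂ (g k) (e s) := by
      rw [hfp]
      simp only
      rw [sum_inner]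
      refine Finset.sum_congr rfl fun k _ => ?_
      rw [inner_smul_left, inner_conj_symm]
    rw [h10, h11, Finset.sum_add_sum_compl, g.sum_inner_mul_inner]
  have h12 : ∑ s, ∑ t, min (a s) (b t) * ‖inner ℂ (e s) (f t)‖ ^ 2
      ≤ ∑ s, ∑ t, (2 * (a s * ‖inner ℂ (f t) (em s)‖ ^ 2) + 2 * (b t * ‖inner ℂ (fp t) (e s)‖ ^ 2)) := by
    refine Finset.sum_le_sum fun s _ => Finset.sum_le_sum fun t _ => ?_
    rw [norm_inner_symm', h9]
    have h13 := parallelogram_le (inner ℂ (f t) (em s)) (inner ℂ (fp t) (e s))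
    have h14 : 0 ≤ min (a s) (b t) := le_min (ha0 s) (hb0 t)
    have h15 := min_le_left (a s) (b t)
    have h16 := min_le_right (a s) (b t)
    have h17 : 0 ≤ ‖inner ℂ (f t) (em s)‖ ^ 2 := sq_nonneg _
    have h18 : 0 ≤ ‖inner ℂ (fp t) (e s)‖ ^ 2 := sq_nonneg _
    have h19 := mul_le_mul_of_nonneg_left h13 h14
    have h20 := mul_le_mul_of_nonneg_right h15 h17
    have h21 := mul_le_mul_of_nonneg_right h16 h18
    nlinarith
  have h22 : ∑ s, ∑ t, (2 * (a s * ‖inner ℂ (f t) (em s)‖ ^ 2)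
      + 2 * (b t * ‖inner ℂ (fp t) (e s)‖ ^ 2))
      = 2 * ∑ k ∈ N, qa k + 2 * ∑ k ∈ Nᶜ, qb k := by
    rw [h7, h8]
    simp_rw [Finset.sum_add_distrib, Finset.mul_sum]
    congr 1
    rw [Finset.sum_comm]
  linarith


/-- The trace norm `‖X‖₁ = Tr √(X* X)`. -/
noncomputable def traceNorm (X : Matrix (Fin d) (Fin d) ℂ) : ℝ :=
  (CFC.sqrt (Xᴴ * X)).trace.re

/-- `L(A₁,…,Aₙ) = Tr √(∑ⱼ Aⱼ²) - ∑ⱼ Tr Aⱼ`. -/
noncomputable def L {n : ℕ} (A : Fin n → Matrix (Fin d) (Fin d) ℂ) : ℝ :=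
  (CFC.sqrt (∑ j, A j ^ 2)).trace.re - ∑ j, (A j).trace.re

/-- `R(A₁,…,Aₙ) = ∑_{j<k} (‖Aⱼ - Aₖ‖₁ - Tr (Aⱼ + Aₖ))`. -/
noncomputable def R {n : ℕ} (A : Fin n → Matrix (Fin d) (Fin d) ℂ) : ℝ :=
  ∑ j, ∑ k ∈ Finset.univ.filter (fun k => j < k),
    (traceNorm (A j - A k) - (A j + A k).trace.re)

lemma sum_offdiag_symm {n : ℕ} (g : Fin n → Fin n → ℝ) (hg : ∀ j k, g j k = g k j) :
    ∑ j, ∑ k ∈ Finset.univ.erase j, g j k
      = 2 * ∑ j, ∑ k ∈ Finset.univ.filter (fun k => j < k), g j k := by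
  have h1 : ∀ j : Fin n, ∑ k ∈ Finset.univ.erase j, g j k
      = ∑ k ∈ Finset.univ.filter (fun k => j < k), g j k
        + ∑ k ∈ Finset.univ.filter (fun k => k < j), g j k := by
    intro j
    rw [← Finset.sum_union]
    · refine Finset.sum_congr ?_ fun _ _ => rfl
      ext k
      simp only [Finset.mem_erase, Finset.mem_univ, and_true, Finset.mem_union, Finset.mem_filter,
        true_and]
      constructor
      · intro h
        rcases lt_trichotomy j k with h' | h' | h'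
        · exact Or.inl h'
        · exact absurd h'.symm h
        · exact Or.inr h'
      · rintro (h | h)
        · exact ne_of_gt h
        · exact ne_of_lt h
    · rw [Finset.disjoint_filter]
      intro k _ h1 h2
      exact lt_asymm h1 h2
  have h2 : ∑ j : Fin n, ∑ k ∈ Finset.univ.filter (fun k => k < j), g j k
      = ∑ j, ∑ k ∈ Finset.univ.filter (fun k => j < k), g j k := by
    simp_rw [Finset.sum_filter]
    rw [Finset.sum_comm]
    refine Finset.sum_congr rfl fun j _ => Finset.sum_congr rfl fun k _ => ?_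
    rw [hg]
  simp_rw [h1]
  rw [Finset.sum_add_distrib, h2]
  ring

/-- The quantitative inequality, with the explicit constant `8 (n + 1)`. -/
theorem explicit {n : ℕ} (A : Fin n → Matrix (Fin d) (Fin d) ℂ) (hA : ∀ j, (A j).PosSemidef) :
    8 * ((n : ℝ) + 1) * R A ≤ L A := by
  classical
  set lam : Fin n × Fin d → ℝ := fun α => (hA α.1).isHermitian.eigenvalues α.2 with hlamdef
  have hlam : ∀ α, 0 ≤ lam α := fun α => (hA α.1).eigenvalues_nonneg α.2
  obtain ⟨u, hu, hD⟩ := core (fun j => (hA j).isHermitian.eigenvectorBasis) lam hlam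
  have hsum : (∑ j, A j ^ 2).PosSemidef := by
    refine Matrix.posSemidef_sum _ fun j _ => ?_
    have h := Matrix.posSemidef_conjTranspose_mul_self (A j)
    rw [(hA j).isHermitian.eq] at h
    rwa [pow_two]
  have hS : (CFC.sqrt (∑ j, A j ^ 2)).PosSemidef :=
    Matrix.nonneg_iff_posSemidef.mp (CFC.sqrt_nonneg _)
  have hSS : CFC.sqrt (∑ j, A j ^ 2) * CFC.sqrt (∑ j, A j ^ 2) = ∑ j, A j ^ 2 :=
    CFC.sqrt_mul_sqrt_self _ (Matrix.nonneg_iff_posSemidef.mpr hsum)
  have h1 := trace_sqrt_ge A hA _ hS hSS u hu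
  have h2 : ∑ j, (A j).trace.re = ∑ α, lam α := by
    rw [Fintype.sum_prod_type]
    refine Finset.sum_congr rfl fun j _ => ?_
    rw [(hA j).isHermitian.trace_eq_sum_eigenvalues]
    simp [hlamdef]
  have h3 : ∑ α, lam α * (1 - (inner ℂ (u α) ((hA α.1).isHermitian.eigenvectorBasis α.2)).re)
      = ∑ α, lam α - ∑ α, lam α *
        (inner ℂ (u α) ((hA α.1).isHermitian.eigenvectorBasis α.2)).re := by
    rw [← Finset.sum_sub_distrib]
    refine Finset.sum_congr rfl fun α _ => ?_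
    ring
  rw [h3] at hD
  have h4 : ∀ j, ∀ k ∈ Finset.univ.erase j, ∑ s, ∑ t, min (lam (j, s)) (lam (k, t)) *
      ‖inner ℂ ((hA j).isHermitian.eigenvectorBasis s) ((hA k).isHermitian.eigenvectorBasis t)‖ ^ 2
      ≤ (A j + A k).trace.re - traceNorm (A j - A k) := by
    intro j k _
    have hX : ((A j - A k)ᴴ * (A j - A k)) = (A j - A k) * (A j - A k) := by
      rw [((hA j).isHermitian.sub (hA k).isHermitian).eq]
    refine pair_bound (hA j) (hA k) (Matrix.nonneg_iff_posSemidef.mp (CFC.sqrt_nonneg _)) ?_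
    rw [CFC.sqrt_mul_sqrt_self _ (Matrix.nonneg_iff_posSemidef.mpr
      (Matrix.posSemidef_conjTranspose_mul_self _)), hX]
  have h5 : ∑ j, ∑ k ∈ Finset.univ.erase j, ∑ s, ∑ t, min (lam (j, s)) (lam (k, t)) *
      ‖inner ℂ ((hA j).isHermitian.eigenvectorBasis s) ((hA k).isHermitian.eigenvectorBasis t)‖ ^ 2
      ≤ ∑ j, ∑ k ∈ Finset.univ.erase j, ((A j + A k).trace.re - traceNorm (A j - A k)) :=
    Finset.sum_le_sum fun j _ => Finset.sum_le_sum fun k hk => h4 j k hk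
  have h6 : ∑ j, ∑ k ∈ Finset.univ.erase j, ((A j + A k).trace.re - traceNorm (A j - A k))
      = -(2 * R A) := by
    rw [sum_offdiag_symm]
    · unfold R
      rw [← mul_neg, ← Finset.sum_neg_distrib]
      congr 1
      refine Finset.sum_congr rfl fun j _ => ?_
      rw [← Finset.sum_neg_distrib]
      refine Finset.sum_congr rfl fun k _ => ?_
      ring
    · intro j k
      have h7 : (A j - A k)ᴴ * (A j - A k) = (A k - A j)ᴴ * (A k - A j) := by
        rw [← neg_sub (A k) (A j), Matrix.conjTranspose_neg, neg_mul_neg]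
      unfold traceNorm
      rw [h7, add_comm (A j) (A k)]
  have h8 : (0 : ℝ) ≤ 4 * n + 4 := by positivity
  have h9 := mul_le_mul_of_nonneg_left (h5.trans h6.le) h8
  unfold L
  rw [h2]
  have h10 : 8 * ((n : ℝ) + 1) * R A = -((4 * n + 4) * -(2 * R A)) := by ring
  rw [h10]
  linarith

/-- For every `n` there is a constant `c > 0`, at most `8 (n + 1)`, independent of the dimension,
such that `L ≥ c R` for all families of `n` positive semidefinite matrices. -/
theorem result (n : ℕ) :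
    ∃ c : ℝ, 0 < c ∧ c ≤ 8 * ((n : ℝ) + 1) ∧
      ∀ (d : ℕ) (A : Fin n → Matrix (Fin d) (Fin d) ℂ), (∀ j, (A j).PosSemidef) →
        c * R A ≤ L A :=
  ⟨8 * ((n : ℝ) + 1), by positivity, le_rfl, fun _ A hA => explicit A hA⟩

end Mat

end Pool.Agent.Results.MP_ebd556_mp.TraceInequality
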